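import Mathlib

/-!
# Cookie stacks: moments of the number of failures before the `(v+1)`-st success
-/

set_option autoImplicit false

open MeasureTheory ProbabilityTheory Filter Topology
open scoped ENNReal NNReal

namespace Pool.Agent.K7.H95.ERW

/-- `Nat.nth (s · = true) v - v`: the number of failures before the `(v+1)`-st success. -/
noncomputable def F (s : ℕ → Bool) (v : ℕ) : ℕ := Nat.nth (fun i => s i = true) v - v

/-- the sign of the `n`-th instruction -/
def xi (n : ℕ) (s : ℕ → Bool) : ℝ := if s n = true then 1 else -1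

/-- the drift of the `n`-th cookie -/
noncomputable def dr (n : ℕ) (w : ℕ → unitInterval) : ℝ := 2 * (w n : ℝ) - 1

/-- A joint law of a cookie stack and a stack of instructions. -/
structure IsStack (J : Measure ((ℕ → unitInterval) × (ℕ → Bool))) : Prop where
  /-- given the cookies and the first `n` instructions, the `n`-th one has drift `dr n` -/
  key : ∀ (n : ℕ) (g : (ℕ → unitInterval) × (ℕ → Bool) → ℝ), Measurable g →
    (∃ C, ∀ x, |g x| ≤ C) → (∀ w s s', (∀ i < n, s i = s' i) → g (w, s) = g (w, s')) →
    ∫ x, g x * xi n x.2 ∂J = ∫ x, g x * dr n x.1 ∂J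
  /-- non-negative drifts -/
  pos : ∀ᵐ x ∂J, ∀ i, 0 ≤ dr i x.1

/-- number of successes among the first `n` instructions -/
def cn (n : ℕ) (s : ℕ → Bool) : ℕ := Nat.count (fun i => s i = true) n

/-- number of successes still needed to have `v + 1` of them -/
def an (v n : ℕ) (s : ℕ → Bool) : ℕ := v + 1 - cn n s

/-- number of failures before the `(v+1)`-st success, among the first `n` instructions -/
def bn (v : ℕ) : ℕ → (ℕ → Bool) → ℕ
  | 0, _ => 0
  | n + 1, s => if s n = false ∧ cn n s ≤ v then bn v n s + 1 else bn v n s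

/-- the `(v+1)`-st success is not among the first `n` instructions -/
noncomputable def zn (v n : ℕ) (s : ℕ → Bool) : ℝ := if cn n s ≤ v then 1 else 0

/-- `a + b` -/
noncomputable def xn (v n : ℕ) (s : ℕ → Bool) : ℝ := (an v n s : ℝ) + bn v n s

lemma cn_succ (n : ℕ) (s : ℕ → Bool) : cn (n + 1) s = cn n s + if s n = true then 1 else 0 := by
  simp [cn, Nat.count_succ]

lemma cn_zero (s : ℕ → Bool) : cn 0 s = 0 := by simp [cn]

lemma cn_le (n : ℕ) (s : ℕ → Bool) : cn n s ≤ n := Nat.count_le _

lemma cn_mono (s : ℕ → Bool) : Monotone (fun n => cn n s) := Nat.count_monotone _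

lemma cn_dep {n : ℕ} {s s' : ℕ → Bool} (h : ∀ i < n, s i = s' i) : cn n s = cn n s' := by
  induction n with
  | zero => simp [cn_zero]
  | succ n ih =>
    rw [cn_succ, cn_succ, ih (fun i hi => h i (by omega)), h n (by omega)]

lemma bn_dep {v n : ℕ} {s s' : ℕ → Bool} (h : ∀ i < n, s i = s' i) : bn v n s = bn v n s' := by
  induction n with
  | zero => rfl
  | succ n ih =>
    have h1 := ih (fun i hi => h i (by omega))
    have h2 := h n (by omega)
    have h3 : cn n s = cn n s' := cn_dep (fun i hi => h i (by omega))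
    simp only [bn, h1, h2, h3]

lemma bn_le (v n : ℕ) (s : ℕ → Bool) : bn v n s ≤ n := by
  induction n with
  | zero => simp [bn]
  | succ n ih =>
    simp only [bn]
    split_ifs <;> omega

lemma bn_mono (v : ℕ) (s : ℕ → Bool) : Monotone (fun n => bn v n s) := by
  refine monotone_nat_of_le_succ (fun n => ?_)
  simp only [bn]
  split_ifs <;> omega

lemma an_le (v n : ℕ) (s : ℕ → Bool) : an v n s ≤ v + 1 := Nat.sub_le _ _

lemma xi_sq (n : ℕ) (s : ℕ → Bool) : xi n s * xi n s = 1 := by
  unfold xi; split_ifs <;> norm_num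

lemma zn_sq (v n : ℕ) (s : ℕ → Bool) : zn v n s * zn v n s = zn v n s := by
  unfold zn; split_ifs <;> norm_num

lemma zn_nonneg (v n : ℕ) (s : ℕ → Bool) : 0 ≤ zn v n s := by
  unfold zn; split_ifs <;> norm_num

lemma zn_le_one (v n : ℕ) (s : ℕ → Bool) : zn v n s ≤ 1 := by
  unfold zn; split_ifs <;> norm_num

lemma zn_anti (v : ℕ) (s : ℕ → Bool) : Antitone (fun n => zn v n s) := by
  intro m n hmn
  have h := cn_mono s hmn
  simp only at h
  unfold zn
  simp only
  split_ifs with h1 h2
  · exact le_rfl
  · omega
  · norm_num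
  · exact le_rfl

lemma zn_eq_one {v n : ℕ} (h : n ≤ v) (s : ℕ → Bool) : zn v n s = 1 := by
  unfold zn
  rw [if_pos ((cn_le n s).trans h)]

lemma an_succ (v n : ℕ) (s : ℕ → Bool) :
    2 * (an v (n + 1) s : ℝ) = 2 * an v n s - (1 + xi n s) * zn v n s := by
  unfold an zn xi
  rw [cn_succ]
  by_cases h : cn n s ≤ v
  · by_cases h2 : s n = true
    · simp only [h, h2, if_true]
      rw [show v + 1 - (cn n s + 1) = v - cn n s by omega]
      rw [show v + 1 - cn n s = (v - cn n s) + 1 by omega]
      push_cast
      ring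
    · simp only [h, h2, if_true]
      norm_num
  · rw [show v + 1 - (cn n s + if s n = true then 1 else 0) = 0 by omega,
      show v + 1 - cn n s = 0 by omega]
    simp [h]

lemma bn_succ (v n : ℕ) (s : ℕ → Bool) :
    2 * (bn v (n + 1) s : ℝ) = 2 * bn v n s + (1 - xi n s) * zn v n s := by
  unfold zn xi
  simp only [bn]
  by_cases h : cn n s ≤ v
  · by_cases h2 : s n = true
    · simp [h, h2]
    · simp only [h]
      simp only [Bool.not_eq_true] at h2
      simp [h2]
      ring
  · simp [h]

lemma xn_succ (v n : ℕ) (s : ℕ → Bool) : xn v (n + 1) s = xn v n s - xi n s * zn v n s := by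
  unfold xn
  have h1 := an_succ v n s
  have h2 := bn_succ v n s
  linarith

lemma xn_zero (v : ℕ) (s : ℕ → Bool) : xn v 0 s = v + 1 := by
  unfold xn an
  rw [cn_zero]
  simp [bn]

/-- the harmonic function `(a+b)² + 2a - 2K(a+b)` -/
noncomputable def hn (K : ℝ) (v n : ℕ) (s : ℕ → Bool) : ℝ :=
  xn v n s ^ 2 + 2 * an v n s - 2 * K * xn v n s

lemma hn_succ (K : ℝ) (v n : ℕ) (s : ℕ → Bool) :
    hn K v (n + 1) s = hn K v n s - (zn v n s * (2 * xn v n s + 1 - 2 * K)) * xi n s := by
  unfold hn
  rw [an_succ, xn_succ]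
  have h1 := xi_sq n s
  have h2 := zn_sq v n s
  have h3 : (xn v n s - xi n s * zn v n s) ^ 2 =
      xn v n s ^ 2 - 2 * xn v n s * (xi n s * zn v n s) + (xi n s * xi n s) * (zn v n s * zn v n s) := by
    ring
  rw [h3, h1, h2]
  ring

lemma hn_zero (K : ℝ) (v : ℕ) (s : ℕ → Bool) :
    hn K v 0 s = (v + 1) ^ 2 + 2 * (v + 1) - 2 * K * (v + 1) := by
  unfold hn
  rw [xn_zero]
  unfold an
  rw [cn_zero]
  push_cast
  simp

lemma sum_zn (v N : ℕ) (s : ℕ → Bool) :
    ∑ n ∈ Finset.range N, zn v n s = (v + 1 - an v N s : ℝ) + bn v N s := by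
  induction N with
  | zero =>
    unfold an
    rw [cn_zero]
    simp [bn]
  | succ n ih =>
    rw [Finset.sum_range_succ, ih]
    have h1 := an_succ v n s
    have h2 := bn_succ v n s
    linarith

/-! measurability and bounds -/

lemma measurable_cn (n : ℕ) : Measurable (cn n) := by
  induction n with
  | zero =>
    have : cn 0 = fun _ => 0 := by funext s; exact cn_zero s
    rw [this]; exact measurable_const
  | succ n ih =>
    have : cn (n + 1) = fun s => cn n s + if s n = true then 1 else 0 := by
      funext s; exact cn_succ n s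
    rw [this]
    refine ih.add (Measurable.ite ?_ measurable_const measurable_const)
    exact measurableSet_eq_fun (measurable_pi_apply n) measurable_const

lemma measurable_bn (v n : ℕ) : Measurable (bn v n) := by
  induction n with
  | zero => exact measurable_const
  | succ n ih =>
    have : bn v (n + 1) = fun s => if s n = false ∧ cn n s ≤ v then bn v n s + 1 else bn v n s := rfl
    rw [this]
    refine Measurable.ite ?_ (ih.add measurable_const) ih
    exact (measurableSet_eq_fun (measurable_pi_apply n) measurable_const).inter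
      (measurableSet_le (measurable_cn n) measurable_const)

lemma measurable_an (v n : ℕ) : Measurable (an v n) := by
  unfold an
  exact measurable_const.sub (measurable_cn n)

lemma measurable_zn (v n : ℕ) : Measurable (zn v n) := by
  unfold zn
  exact Measurable.ite (measurableSet_le (measurable_cn n) measurable_const) measurable_const
    measurable_const

lemma measurable_xn (v n : ℕ) : Measurable (xn v n) := by
  unfold xn
  exact (measurable_from_nat.comp (measurable_an v n)).add
    (measurable_from_nat.comp (measurable_bn v n))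

lemma measurable_hn (K : ℝ) (v n : ℕ) : Measurable (hn K v n) := by
  unfold hn
  exact (((measurable_xn v n).pow_const 2).add
    ((measurable_from_nat.comp (measurable_an v n)).const_mul 2)).sub
    ((measurable_xn v n).const_mul (2 * K))

lemma measurable_xi (n : ℕ) : Measurable (xi n) := by
  unfold xi
  exact Measurable.ite (measurableSet_eq_fun (measurable_pi_apply n) measurable_const)
    measurable_const measurable_const

lemma measurable_dr (n : ℕ) : Measurable (dr n) := by
  unfold dr
  exact ((measurable_subtype_coe.comp (measurable_pi_apply n)).const_mul 2).sub measurable_const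

lemma dr_le (n : ℕ) (w : ℕ → unitInterval) : dr n w ≤ 1 := by
  unfold dr
  have := (w n).2.2
  linarith

lemma abs_dr_le (n : ℕ) (w : ℕ → unitInterval) : |dr n w| ≤ 1 := by
  unfold dr
  have h1 := (w n).2.2
  have h2 := (w n).2.1
  rw [abs_le]
  constructor <;> linarith

lemma xn_nonneg (v n : ℕ) (s : ℕ → Bool) : 0 ≤ xn v n s := by
  unfold xn; positivity

lemma xn_le (v n : ℕ) (s : ℕ → Bool) : xn v n s ≤ v + 1 + n := by
  unfold xn
  have h1 : (an v n s : ℝ) ≤ v + 1 := by exact_mod_cast an_le v n s
  have h2 : (bn v n s : ℝ) ≤ n := by exact_mod_cast bn_le v n s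
  linarith

lemma abs_xi (n : ℕ) (s : ℕ → Bool) : |xi n s| = 1 := by
  unfold xi; split_ifs <;> norm_num

lemma zn_dep {v n : ℕ} {s s' : ℕ → Bool} (h : ∀ i < n, s i = s' i) : zn v n s = zn v n s' := by
  unfold zn; rw [cn_dep h]

lemma xn_dep {v n : ℕ} {s s' : ℕ → Bool} (h : ∀ i < n, s i = s' i) : xn v n s = xn v n s' := by
  unfold xn an; rw [cn_dep h, bn_dep h]

end Pool.Agent.K7.H95.ERW
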