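import Pool.Agent.K7.H95.ERW.Chain1

set_option autoImplicit false

open MeasureTheory ProbabilityTheory Filter Topology
open scoped ENNReal NNReal

namespace Pool.Agent.K7.H95.ERW

variable {J : Measure ((ℕ → unitInterval) × (ℕ → Bool))}

lemma int_bdd {X : Type*} [MeasurableSpace X] {J : Measure X} [IsFiniteMeasure J] {f : X → ℝ}
    (hm : Measurable f) (h : ∃ C, ∀ x, |f x| ≤ C) : Integrable f J := by
  obtain ⟨C, hC⟩ := h
  exact Integrable.of_bound hm.aestronglyMeasurable C (Eventually.of_forall fun x => by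
    rw [Real.norm_eq_abs]; exact hC x)

/-- expected drift -/
noncomputable def ed (J : Measure ((ℕ → unitInterval) × (ℕ → Bool))) (n : ℕ) : ℝ :=
  ∫ x, dr n x.1 ∂J

lemma int_dr [IsProbabilityMeasure J] (n : ℕ) : Integrable (fun x => dr n x.1) J :=
  int_bdd ((measurable_dr n).comp measurable_fst) ⟨1, fun x => abs_dr_le n x.1⟩

lemma ed_nonneg [IsProbabilityMeasure J] (hJ : IsStack J) (n : ℕ) : 0 ≤ ed J n :=
  integral_nonneg_of_ae (hJ.pos.mono fun _ hx => hx n)

lemma bdd_xn (v n : ℕ) : ∀ s, |xn v n s| ≤ v + 1 + n := by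
  intro s
  rw [abs_of_nonneg (xn_nonneg v n s)]
  exact xn_le v n s

lemma bdd_zn (v n : ℕ) : ∀ s, |zn v n s| ≤ 1 := by
  intro s
  rw [abs_of_nonneg (zn_nonneg v n s)]
  exact zn_le_one v n s

/-- one step for `a + b` -/
lemma step_x [IsProbabilityMeasure J] (hJ : IsStack J) (v n : ℕ) {g : (ℕ → unitInterval) → ℝ}
    (hg : Measurable g) {C : ℝ} (hb : ∀ w, |g w| ≤ C) :
    ∫ x, g x.1 * xn v (n + 1) x.2 ∂J =
      ∫ x, g x.1 * xn v n x.2 ∂J - ∫ x, g x.1 * zn v n x.2 * dr n x.1 ∂J := by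
  have hC : 0 ≤ C := (abs_nonneg _).trans (hb (fun _ => 0))
  have m1 : Measurable fun x : (ℕ → unitInterval) × (ℕ → Bool) => g x.1 := hg.comp measurable_fst
  have m2 : Measurable fun x : (ℕ → unitInterval) × (ℕ → Bool) => zn v n x.2 :=
    (measurable_zn v n).comp measurable_snd
  have m3 : Measurable fun x : (ℕ → unitInterval) × (ℕ → Bool) => xn v n x.2 :=
    (measurable_xn v n).comp measurable_snd
  have m4 : Measurable fun x : (ℕ → unitInterval) × (ℕ → Bool) => xi n x.2 :=
    (measurable_xi n).comp measurable_snd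
  have bz : ∀ x : (ℕ → unitInterval) × (ℕ → Bool), |g x.1 * zn v n x.2| ≤ C := by
    intro x
    rw [abs_mul]
    have := mul_le_mul (hb x.1) (bdd_zn v n x.2) (abs_nonneg _) hC
    linarith
  have h1 := hJ.key n (fun x => g x.1 * zn v n x.2) (m1.mul m2) ⟨C, bz⟩ (by
    intro w s s' h
    simp only
    rw [zn_dep h])
  have h2 : ∀ x : (ℕ → unitInterval) × (ℕ → Bool), g x.1 * xn v (n + 1) x.2 =
      g x.1 * xn v n x.2 - g x.1 * zn v n x.2 * xi n x.2 := by
    intro x
    rw [xn_succ]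
    ring
  simp only [h2]
  rw [integral_sub, h1]
  · refine int_bdd (m1.mul m3) ⟨C * (v + 1 + n), fun x => ?_⟩
    rw [abs_mul]
    exact mul_le_mul (hb x.1) (bdd_xn v n x.2) (abs_nonneg _) hC
  · refine int_bdd ((m1.mul m2).mul m4) ⟨C, fun x => ?_⟩
    rw [abs_mul, abs_xi, mul_one]
    exact bz x

lemma mean_x [IsProbabilityMeasure J] (hJ : IsStack J) (v n : ℕ) {g : (ℕ → unitInterval) → ℝ}
    (hg : Measurable g) {C : ℝ} (hb : ∀ w, |g w| ≤ C) :
    ∫ x, g x.1 * xn v n x.2 ∂J = (v + 1) * ∫ x, g x.1 ∂J -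
      ∑ k ∈ Finset.range n, ∫ x, g x.1 * zn v k x.2 * dr k x.1 ∂J := by
  induction n with
  | zero =>
    simp only [xn_zero, Finset.range_zero, Finset.sum_empty, sub_zero]
    rw [integral_mul_const, mul_comm]
  | succ n ih =>
    rw [step_x hJ v n hg hb, ih, Finset.sum_range_succ]
    ring

/-- `a + b` is a supermartingale -/
lemma mean_x_le [IsProbabilityMeasure J] (hJ : IsStack J) (v n : ℕ) {g : (ℕ → unitInterval) → ℝ}
    (hg : Measurable g) {C : ℝ} (hb : ∀ w, |g w| ≤ C) (h0 : ∀ᵐ x ∂J, 0 ≤ g x.1) :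
    ∫ x, g x.1 * xn v n x.2 ∂J ≤ (v + 1) * ∫ x, g x.1 ∂J := by
  rw [mean_x hJ v n hg hb]
  have : 0 ≤ ∑ k ∈ Finset.range n, ∫ x, g x.1 * zn v k x.2 * dr k x.1 ∂J := by
    refine Finset.sum_nonneg fun k _ => integral_nonneg_of_ae ?_
    filter_upwards [h0, hJ.pos] with x hx hx2
    exact mul_nonneg (mul_nonneg hx (zn_nonneg _ _ _)) (hx2 k)
  linarith

/-- one step for the harmonic function -/
lemma step_h [IsProbabilityMeasure J] (hJ : IsStack J) (K : ℝ) (v n : ℕ) :
    ∫ x, hn K v (n + 1) x.2 ∂J =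
      ∫ x, hn K v n x.2 ∂J -
        ∫ x, (zn v n x.2 * (2 * xn v n x.2 + 1 - 2 * K)) * dr n x.1 ∂J := by
  have m2 : Measurable fun x : (ℕ → unitInterval) × (ℕ → Bool) => zn v n x.2 :=
    (measurable_zn v n).comp measurable_snd
  have m3 : Measurable fun x : (ℕ → unitInterval) × (ℕ → Bool) => xn v n x.2 :=
    (measurable_xn v n).comp measurable_snd
  have m4 : Measurable fun x : (ℕ → unitInterval) × (ℕ → Bool) => xi n x.2 :=
    (measurable_xi n).comp measurable_snd
  have m5 : Measurable fun x : (ℕ → unitInterval) × (ℕ → Bool) =>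
      zn v n x.2 * (2 * xn v n x.2 + 1 - 2 * K) :=
    m2.mul (((m3.const_mul 2).add measurable_const).sub measurable_const)
  have b5 : ∀ x : (ℕ → unitInterval) × (ℕ → Bool),
      |zn v n x.2 * (2 * xn v n x.2 + 1 - 2 * K)| ≤ 2 * (v + 1 + n) + 1 + 2 * |K| := by
    intro x
    rw [abs_mul]
    have h1 := bdd_zn v n x.2
    have h2 := xn_nonneg v n x.2
    have h3 := xn_le v n x.2
    have h4 : |2 * xn v n x.2 + 1 - 2 * K| ≤ 2 * (v + 1 + n) + 1 + 2 * |K| := by
      have h5 := le_abs_self K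
      have h6 := neg_abs_le K
      rw [abs_le]
      constructor <;> linarith
    calc |zn v n x.2| * |2 * xn v n x.2 + 1 - 2 * K| ≤ 1 * |2 * xn v n x.2 + 1 - 2 * K| :=
          mul_le_mul_of_nonneg_right h1 (abs_nonneg _)
      _ ≤ _ := by rw [one_mul]; exact h4
  have h1 := hJ.key n (fun x => zn v n x.2 * (2 * xn v n x.2 + 1 - 2 * K)) m5 ⟨_, b5⟩ (by
    intro w s s' h
    simp only
    rw [zn_dep h, xn_dep h])
  simp only [hn_succ]
  rw [integral_sub, h1]
  · refine int_bdd ((measurable_hn K v n).comp measurable_snd)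
      ⟨(v + 1 + n) ^ 2 + 2 * (v + 1) + 2 * |K| * (v + 1 + n), fun x => ?_⟩
    unfold hn
    have h2 := xn_nonneg v n x.2
    have h3 := xn_le v n x.2
    have h4 : (an v n x.2 : ℝ) ≤ v + 1 := by exact_mod_cast an_le v n x.2
    have h5 : (0 : ℝ) ≤ an v n x.2 := Nat.cast_nonneg _
    have h6 : |K * xn v n x.2| ≤ |K| * (v + 1 + n) := by
      rw [abs_mul, abs_of_nonneg h2]
      exact mul_le_mul_of_nonneg_left h3 (abs_nonneg _)
    have h7 := abs_le.1 h6
    have h8 : xn v n x.2 ^ 2 ≤ ((v : ℝ) + 1 + n) ^ 2 := pow_le_pow_left₀ h2 h3 2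
    have h9 := sq_nonneg (xn v n x.2)
    rw [abs_le]
    have h10 : 0 ≤ |K| * ((v : ℝ) + 1 + n) := by positivity
    have h11 : 0 ≤ ((v : ℝ) + 1 + n) ^ 2 := by positivity
    have h12 : (0 : ℝ) ≤ v + 1 := by positivity
    constructor <;> nlinarith [h7.1, h7.2]
  · refine int_bdd (m5.mul m4) ⟨2 * (v + 1 + n) + 1 + 2 * |K|, fun x => ?_⟩
    rw [abs_mul, abs_xi, mul_one]
    exact b5 x

lemma mean_h [IsProbabilityMeasure J] (hJ : IsStack J) (K : ℝ) (v n : ℕ) :
    ∫ x, hn K v n x.2 ∂J = (v + 1) ^ 2 + 2 * (v + 1) - 2 * K * (v + 1) -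
      ∑ k ∈ Finset.range n, ∫ x, (zn v k x.2 * (2 * xn v k x.2 + 1 - 2 * K)) * dr k x.1 ∂J := by
  induction n with
  | zero =>
    simp only [hn_zero, Finset.range_zero, Finset.sum_empty, sub_zero]
    simp
  | succ n ih =>
    rw [step_h hJ K v n, ih, Finset.sum_range_succ]
    ring

/-- upper bound for the effect of one cookie -/
lemma term_le [IsProbabilityMeasure J] (hJ : IsStack J) {K : ℝ} (hK : 1 / 2 ≤ K) (v k : ℕ) :
    ∫ x, (zn v k x.2 * (2 * xn v k x.2 + 1 - 2 * K)) * dr k x.1 ∂J ≤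
      (2 * v + 3 - 2 * K) * ed J k + (2 * K - 1) * (if v + 1 ≤ k then ed J k else 0) := by
  have m1 : Measurable fun x : (ℕ → unitInterval) × (ℕ → Bool) => dr k x.1 :=
    (measurable_dr k).comp measurable_fst
  have m2 : Measurable fun x : (ℕ → unitInterval) × (ℕ → Bool) => zn v k x.2 :=
    (measurable_zn v k).comp measurable_snd
  have m3 : Measurable fun x : (ℕ → unitInterval) × (ℕ → Bool) => xn v k x.2 :=
    (measurable_xn v k).comp measurable_snd
  have h1 := mean_x_le hJ v k (measurable_dr k) (abs_dr_le k) (hJ.pos.mono fun _ hx => hx k)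
  have i1 : Integrable (fun x => dr k x.1 * xn v k x.2) J := by
    refine int_bdd (m1.mul m3) ⟨v + 1 + k, fun x => ?_⟩
    rw [abs_mul]
    calc |dr k x.1| * |xn v k x.2| ≤ 1 * |xn v k x.2| :=
          mul_le_mul_of_nonneg_right (abs_dr_le k x.1) (abs_nonneg _)
      _ ≤ _ := by rw [one_mul]; exact bdd_xn v k x.2
  have i2 : Integrable (fun x => dr k x.1 * (1 - zn v k x.2)) J := by
    refine int_bdd (m1.mul (measurable_const.sub m2)) ⟨1, fun x => ?_⟩
    rw [abs_mul]
    have h2 := zn_nonneg v k x.2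
    have h3 := zn_le_one v k x.2
    have h4 : |1 - zn v k x.2| ≤ 1 := by
      rw [abs_le]; constructor <;> linarith
    calc |dr k x.1| * |1 - zn v k x.2| ≤ 1 * 1 :=
          mul_le_mul (abs_dr_le k x.1) h4 (abs_nonneg _) zero_le_one
      _ = 1 := by ring
  have h2 : ∫ x, (zn v k x.2 * (2 * xn v k x.2 + 1 - 2 * K)) * dr k x.1 ∂J ≤
      ∫ x, (2 * (dr k x.1 * xn v k x.2) - (2 * K - 1) * dr k x.1 +
        (2 * K - 1) * (dr k x.1 * (1 - zn v k x.2))) ∂J := by
    refine integral_mono_ae ?_ (((i1.const_mul 2).sub ((int_dr k).const_mul (2 * K - 1))).add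
      (i2.const_mul (2 * K - 1))) ?_
    · refine int_bdd ((m2.mul (((m3.const_mul 2).add measurable_const).sub measurable_const)).mul m1)
        ⟨2 * (v + 1 + k) + 1 + 2 * |K|, fun x => ?_⟩
      rw [abs_mul, abs_mul]
      have h2 := xn_nonneg v k x.2
      have h3 := xn_le v k x.2
      have h4 : |2 * xn v k x.2 + 1 - 2 * K| ≤ 2 * (v + 1 + k) + 1 + 2 * |K| := by
        have h5 := le_abs_self K
        have h6 := neg_abs_le K
        rw [abs_le]
        constructor <;> linarith
      calc |zn v k x.2| * |2 * xn v k x.2 + 1 - 2 * K| * |dr k x.1|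
          ≤ (1 * |2 * xn v k x.2 + 1 - 2 * K|) * 1 :=
            mul_le_mul (mul_le_mul_of_nonneg_right (bdd_zn v k x.2) (abs_nonneg _))
              (abs_dr_le k x.1) (abs_nonneg _) (by positivity)
        _ ≤ _ := by rw [one_mul, mul_one]; exact h4
    · filter_upwards [hJ.pos] with x hx
      have h2 := xn_nonneg v k x.2
      have h3 := zn_nonneg v k x.2
      have h4 := zn_le_one v k x.2
      have h5 := hx k
      have h6 : 2 * (dr k x.1 * xn v k x.2) - (2 * K - 1) * dr k x.1 +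
        (2 * K - 1) * (dr k x.1 * (1 - zn v k x.2)) -
        (zn v k x.2 * (2 * xn v k x.2 + 1 - 2 * K)) * dr k x.1 =
          2 * ((1 - zn v k x.2) * (dr k x.1 * xn v k x.2)) := by ring
      have h7 : 0 ≤ (1 - zn v k x.2) * (dr k x.1 * xn v k x.2) :=
        mul_nonneg (by linarith) (mul_nonneg h5 h2)
      linarith
  have h3 : ∫ x, dr k x.1 * (1 - zn v k x.2) ∂J ≤ if v + 1 ≤ k then ed J k else 0 := by
    split_ifs with h
    · refine integral_mono_ae i2 (int_dr k) ?_
      filter_upwards [hJ.pos] with x hx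
      have h3 := zn_nonneg v k x.2
      have h5 := hx k
      nlinarith
    · have : ∀ x : (ℕ → unitInterval) × (ℕ → Bool), dr k x.1 * (1 - zn v k x.2) = 0 := by
        intro x
        rw [zn_eq_one (by omega)]
        ring
      simp [this]
  rw [integral_add, integral_sub, integral_const_mul, integral_const_mul, integral_const_mul] at h2
  · unfold ed at h3 ⊢
    have h4 : (2 * K - 1) * ∫ x, dr k x.1 * (1 - zn v k x.2) ∂J ≤
        (2 * K - 1) * (if v + 1 ≤ k then ∫ x, dr k x.1 ∂J else 0) :=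
      mul_le_mul_of_nonneg_left h3 (by linarith)
    linarith
  · exact i1.const_mul 2
  · exact (int_dr k).const_mul _
  · exact (i1.const_mul 2).sub ((int_dr k).const_mul (2 * K - 1))
  · exact i2.const_mul (2 * K - 1)

/-- lower bound for the effect of an early cookie -/
lemma term_ge [IsProbabilityMeasure J] (hJ : IsStack J) {v k : ℕ} (hk : k ≤ v) :
    (2 * v + 3) * ed J k - 2 * k ≤
      ∫ x, (zn v k x.2 * (2 * xn v k x.2 + 1 - 2 * 0)) * dr k x.1 ∂J := by
  have m1 : Measurable fun x : (ℕ → unitInterval) × (ℕ → Bool) => dr k x.1 :=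
    (measurable_dr k).comp measurable_fst
  have m3 : Measurable fun x : (ℕ → unitInterval) × (ℕ → Bool) => xn v k x.2 :=
    (measurable_xn v k).comp measurable_snd
  have i1 : Integrable (fun x => dr k x.1 * xn v k x.2) J := by
    refine int_bdd (m1.mul m3) ⟨v + 1 + k, fun x => ?_⟩
    rw [abs_mul]
    calc |dr k x.1| * |xn v k x.2| ≤ 1 * |xn v k x.2| :=
          mul_le_mul_of_nonneg_right (abs_dr_le k x.1) (abs_nonneg _)
      _ ≤ _ := by rw [one_mul]; exact bdd_xn v k x.2
  have h1 := mean_x hJ v k (measurable_dr k) (abs_dr_le k)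
  have h2 : ∑ j ∈ Finset.range k, ∫ x, dr k x.1 * zn v j x.2 * dr j x.1 ∂J ≤ k := by
    calc ∑ j ∈ Finset.range k, ∫ x, dr k x.1 * zn v j x.2 * dr j x.1 ∂J
        ≤ ∑ j ∈ Finset.range k, 1 := by
          refine Finset.sum_le_sum fun j _ => ?_
          have : ∫ x, dr k x.1 * zn v j x.2 * dr j x.1 ∂J ≤ ∫ x, (1 : ℝ) ∂J := by
            refine integral_mono ?_ (integrable_const _) (fun x => ?_)
            · refine int_bdd ((m1.mul ((measurable_zn v j).comp measurable_snd)).mul
                ((measurable_dr j).comp measurable_fst)) ⟨1, fun x => ?_⟩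
              rw [abs_mul, abs_mul]
              have a1 := abs_dr_le k x.1
              have a2 := abs_dr_le j x.1
              have a3 := bdd_zn v j x.2
              calc |dr k x.1| * |zn v j x.2| * |dr j x.1| ≤ 1 * 1 * 1 :=
                    mul_le_mul (mul_le_mul a1 a3 (abs_nonneg _) zero_le_one) a2 (abs_nonneg _)
                      (by norm_num)
                _ = 1 := by norm_num
            · simp only
              have a1 := abs_dr_le k x.1
              have a2 := abs_dr_le j x.1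
              have a3 := bdd_zn v j x.2
              calc dr k x.1 * zn v j x.2 * dr j x.1 ≤ |dr k x.1 * zn v j x.2 * dr j x.1| :=
                    le_abs_self _
                _ = |dr k x.1| * |zn v j x.2| * |dr j x.1| := by rw [abs_mul, abs_mul]
                _ ≤ 1 * 1 * 1 :=
                    mul_le_mul (mul_le_mul a1 a3 (abs_nonneg _) zero_le_one) a2 (abs_nonneg _)
                      (by norm_num)
                _ = 1 := by norm_num
          simpa using this
      _ = k := by simp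
  have h3 : ∀ x : (ℕ → unitInterval) × (ℕ → Bool),
      (zn v k x.2 * (2 * xn v k x.2 + 1 - 2 * 0)) * dr k x.1 =
        2 * (dr k x.1 * xn v k x.2) + dr k x.1 := by
    intro x
    rw [zn_eq_one hk]
    ring
  simp only [h3]
  rw [integral_add (i1.const_mul 2) (int_dr k), integral_const_mul, h1]
  unfold ed
  linarith

lemma term_nonneg [IsProbabilityMeasure J] (hJ : IsStack J) (v k : ℕ) :
    0 ≤ ∫ x, (zn v k x.2 * (2 * xn v k x.2 + 1 - 2 * 0)) * dr k x.1 ∂J := by
  refine integral_nonneg_of_ae ?_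
  filter_upwards [hJ.pos] with x hx
  have h2 := xn_nonneg v k x.2
  exact mul_nonneg (mul_nonneg (zn_nonneg _ _ _) (by linarith)) (hx k)

end Pool.Agent.K7.H95.ERW
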