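import Pool.Agent.K7.H95.ERW.Chain2

set_option autoImplicit false

open MeasureTheory ProbabilityTheory Filter Topology
open scoped ENNReal NNReal

namespace Pool.Agent.K7.H95.ERW

variable {J : Measure ((ℕ → unitInterval) × (ℕ → Bool))}

/-- a stack with infinitely many successes -/
def Good (s : ℕ → Bool) : Prop := ∀ v, ∃ n, v < cn n s

lemma F_eq {s : ℕ → Bool} {m v : ℕ} (h1 : s m = true) (h2 : cn m s = v) : F s v = m - v := by
  unfold F
  have := Nat.nth_count (p := fun i => s i = true) h1
  unfold cn at h2
  rw [h2] at this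
  rw [this]

lemma exists_hit {s : ℕ → Bool} {v : ℕ} (h : ∃ n, v < cn n s) : ∃ m, s m = true ∧ cn m s = v := by
  classical
  have h1 := Nat.find_spec h
  have h2 : ∀ m, m < Nat.find h → cn m s ≤ v := fun m hm => not_lt.1 (Nat.find_min h hm)
  rcases h3 : Nat.find h with _ | m
  · rw [h3, cn_zero] at h1; omega
  · rw [h3] at h1 h2
    have h4 := h2 m (by omega)
    rw [cn_succ] at h1
    refine ⟨m, ?_, ?_⟩
    · by_contra hc
      rw [if_neg hc] at h1
      omega
    · split_ifs at h1 <;> omega

lemma bn_eq_sub {v n : ℕ} {s : ℕ → Bool} (h : cn n s ≤ v) : bn v n s = n - cn n s := by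
  induction n with
  | zero => simp [bn]
  | succ n ih =>
    rw [cn_succ] at h ⊢
    have h1 : cn n s ≤ v := by omega
    have h2 := ih h1
    have h3 := cn_le n s
    simp only [bn]
    by_cases h4 : s n = true
    · simp only [h4, if_true] at h ⊢
      simp only [Bool.true_eq_false, false_and, if_false]
      omega
    · simp only [h4] at h ⊢
      rw [if_pos ⟨by simpa using h4, h1⟩]
      simp only [Bool.false_eq_true, if_false]
      omega

lemma bn_const {v m : ℕ} {s : ℕ → Bool} (h : v < cn m s) {n : ℕ} (hn : m ≤ n) :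
    bn v n s = bn v m s := by
  induction n, hn using Nat.le_induction with
  | base => rfl
  | succ n hn ih =>
    have h1 : v < cn n s := lt_of_lt_of_le h (cn_mono s hn)
    simp only [bn]
    rw [if_neg (by omega), ih]

lemma bn_eq_F {v : ℕ} {s : ℕ → Bool} {n : ℕ} (h : v < cn n s) : bn v n s = F s v := by
  obtain ⟨m, h1, h2⟩ := exists_hit ⟨n, h⟩
  rw [F_eq h1 h2]
  have h3 : v < cn (m + 1) s := by rw [cn_succ, h2, if_pos h1]; omega
  have h4 : m + 1 ≤ n := by
    by_contra hc
    have : cn n s ≤ cn m s := cn_mono s (by omega : n ≤ m)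
    omega
  rw [bn_const h3 h4]
  simp only [bn]
  rw [if_neg (by simp [h1]), bn_eq_sub (by omega), h2]

lemma bn_le_F {v : ℕ} {s : ℕ → Bool} (h : ∃ n, v < cn n s) (n : ℕ) : bn v n s ≤ F s v := by
  obtain ⟨m, hm⟩ := h
  rcases le_total n m with h1 | h1
  · rw [← bn_eq_F hm]
    exact bn_mono v s h1
  · rw [← bn_eq_F hm, bn_const hm h1]

lemma bn_mono_v {v v' : ℕ} (h : v ≤ v') (n : ℕ) (s : ℕ → Bool) : bn v n s ≤ bn v' n s := by
  induction n with
  | zero => simp [bn]
  | succ n ih =>
    simp only [bn]
    split_ifs with h1 h2 h2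
    · omega
    · exact absurd ⟨h1.1, h1.2.trans h⟩ h2
    · omega
    · exact ih

lemma F_mono {s : ℕ → Bool} (hs : Good s) : Monotone (F s) := by
  intro v v' h
  obtain ⟨n, hn⟩ := hs v'
  rw [← bn_eq_F hn, ← bn_eq_F (lt_of_le_of_lt h hn)]
  exact bn_mono_v h n s

lemma zn_tendsto {v : ℕ} {s : ℕ → Bool} (h : ∃ n, v < cn n s) :
    Tendsto (fun n => zn v n s) atTop (𝓝 0) := by
  obtain ⟨m, hm⟩ := h
  refine tendsto_const_nhds.congr' ?_
  filter_upwards [eventually_ge_atTop m] with n hn
  have h1 : v < cn n s := lt_of_lt_of_le hm (cn_mono s hn)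
  unfold zn
  rw [if_neg (by omega)]

lemma bn_tendsto {v : ℕ} {s : ℕ → Bool} (h : ∃ n, v < cn n s) :
    Tendsto (fun n => (bn v n s : ℝ)) atTop (𝓝 (F s v)) := by
  obtain ⟨m, hm⟩ := h
  refine tendsto_const_nhds.congr' ?_
  filter_upwards [eventually_ge_atTop m] with n hn
  have h1 : v < cn n s := lt_of_lt_of_le hm (cn_mono s hn)
  rw [bn_eq_F h1]

lemma int_zn [IsProbabilityMeasure J] (v n : ℕ) : Integrable (fun x => zn v n x.2) J :=
  int_bdd ((measurable_zn v n).comp measurable_snd) ⟨1, fun x => bdd_zn v n x.2⟩

lemma int_xn [IsProbabilityMeasure J] (v n : ℕ) : Integrable (fun x => xn v n x.2) J :=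
  int_bdd ((measurable_xn v n).comp measurable_snd) ⟨v + 1 + n, fun x => bdd_xn v n x.2⟩

lemma int_bn [IsProbabilityMeasure J] (v n : ℕ) : Integrable (fun x => (bn v n x.2 : ℝ)) J :=
  int_bdd (measurable_from_nat.comp ((measurable_bn v n).comp measurable_snd)) ⟨n, fun x => by
    rw [Nat.abs_cast]; exact_mod_cast bn_le v n x.2⟩

lemma int_an [IsProbabilityMeasure J] (v n : ℕ) : Integrable (fun x => (an v n x.2 : ℝ)) J :=
  int_bdd (measurable_from_nat.comp ((measurable_an v n).comp measurable_snd)) ⟨v + 1, fun x => by
    rw [Nat.abs_cast]; exact_mod_cast an_le v n x.2⟩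

lemma mean_zn [IsProbabilityMeasure J] (hJ : IsStack J) (v n : ℕ) :
    (n : ℝ) * ∫ x, zn v n x.2 ∂J ≤ 2 * (v + 1) := by
  have h1 : ∑ k ∈ Finset.range n, ∫ x, zn v k x.2 ∂J ≤ 2 * (v + 1) := by
    rw [← integral_finset_sum _ (fun k _ => int_zn v k)]
    simp only [sum_zn]
    have h2 := mean_x_le hJ v n (g := fun _ => 1) measurable_const (C := 1) (by simp) (by simp)
    simp only [one_mul, integral_const, probReal_univ, smul_eq_mul, mul_one] at h2
    have h3 : ∫ x, ((v : ℝ) + 1 - an v n x.2 + bn v n x.2) ∂J ≤ ∫ x, ((v : ℝ) + 1 + xn v n x.2) ∂J := by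
      refine integral_mono ?_ ?_ (fun x => ?_)
      · exact ((integrable_const _).sub (int_an v n)).add (int_bn v n)
      · exact (integrable_const _).add (int_xn v n)
      · simp only
        unfold xn
        have : (0 : ℝ) ≤ an v n x.2 := Nat.cast_nonneg _
        linarith
    rw [integral_add (integrable_const _) (int_xn v n)] at h3
    simp only [integral_const, probReal_univ, smul_eq_mul, one_mul] at h3
    linarith
  have h2 : (n : ℝ) * ∫ x, zn v n x.2 ∂J ≤ ∑ k ∈ Finset.range n, ∫ x, zn v k x.2 ∂J := by
    calc (n : ℝ) * ∫ x, zn v n x.2 ∂J = ∑ k ∈ Finset.range n, ∫ x, zn v n x.2 ∂J := by simp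
      _ ≤ _ := by
        refine Finset.sum_le_sum fun k hk => ?_
        refine integral_mono (int_zn v n) (int_zn v k) (fun x => ?_)
        exact zn_anti v x.2 (Finset.mem_range.1 hk).le
  linarith

lemma zn_one_of_never {v : ℕ} {s : ℕ → Bool} (h : ¬ ∃ n, v < cn n s) (n : ℕ) : zn v n s = 1 := by
  push Not at h
  unfold zn
  rw [if_pos (h n)]

lemma measurableSet_hit (v : ℕ) : MeasurableSet {s : ℕ → Bool | ∃ n, v < cn n s} := by
  have : {s : ℕ → Bool | ∃ n, v < cn n s} = ⋃ n, {s | v < cn n s} := by
    ext s; simp
  rw [this]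
  exact MeasurableSet.iUnion fun n => measurableSet_lt measurable_const (measurable_cn n)

lemma good_ae [IsProbabilityMeasure J] (hJ : IsStack J) : ∀ᵐ x ∂J, Good x.2 := by
  unfold Good
  rw [ae_all_iff]
  intro v
  set A : Set ((ℕ → unitInterval) × (ℕ → Bool)) := {x | ¬ ∃ n, v < cn n x.2} with hA
  have hAm : MeasurableSet A := (measurable_snd (measurableSet_hit v)).compl
  have h1 : ∀ n : ℕ, (n : ℝ) * J.real A ≤ 2 * (v + 1) := by
    intro n
    refine le_trans (mul_le_mul_of_nonneg_left ?_ (Nat.cast_nonneg n)) (mean_zn hJ v n)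
    calc J.real A = ∫ x, A.indicator (fun _ => (1 : ℝ)) x ∂J := by
          rw [integral_indicator_const _ hAm]; simp
      _ ≤ ∫ x, zn v n x.2 ∂J := by
          refine integral_mono ((integrable_const _).indicator hAm) (int_zn v n) (fun x => ?_)
          by_cases hx : x ∈ A
          · rw [Set.indicator_of_mem hx]
            exact (zn_one_of_never hx n).ge
          · rw [Set.indicator_of_notMem hx]
            exact zn_nonneg _ _ _
  have h2 : J.real A = 0 := by
    by_contra hc
    have h3 : 0 < J.real A := lt_of_le_of_ne measureReal_nonneg (Ne.symm hc)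
    obtain ⟨n, hn⟩ := exists_nat_gt (2 * ((v : ℝ) + 1) / J.real A)
    rw [div_lt_iff₀ h3] at hn
    linarith [h1 n]
  rw [measureReal_eq_zero_iff] at h2
  exact h2

lemma measurable_F (v : ℕ) : Measurable (fun s : ℕ → Bool => F s v) := by
  classical
  refine measurable_to_countable' (fun k => ?_)
  -- `F s v = k`
  have h : (fun s : ℕ → Bool => F s v) ⁻¹' {k} =
      ({s | ∃ n, v < cn n s} ∩ {s | ∃ n, v < cn n s ∧ bn v n s = k}) ∪
        ({s | ∃ n, v < cn n s}ᶜ ∩ {s | k = 0}) := by
    ext s
    simp only [Set.mem_preimage, Set.mem_singleton_iff, Set.mem_union, Set.mem_inter_iff,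
      Set.mem_setOf_eq, Set.mem_compl_iff]
    constructor
    · intro hs
      by_cases h : ∃ n, v < cn n s
      · left
        obtain ⟨n, hn⟩ := h
        exact ⟨⟨n, hn⟩, n, hn, (bn_eq_F hn).trans hs⟩
      · right
        refine ⟨h, ?_⟩
        have : F s v = 0 := by
          unfold F
          have h1 : Nat.nth (fun i => s i = true) v = 0 := by
            rw [Nat.nth_eq_zero]
            right
            push Not at h
            have hf : (Set.ofPred fun i => s i = true).Finite := by
              by_contra hinf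
              have := Nat.count_nth_of_infinite (p := fun i => s i = true) hinf (v + 1)
              have h2 := h (Nat.nth (fun i => s i = true) (v + 1))
              unfold cn at h2
              omega
            refine ⟨hf, ?_⟩
            by_contra hc
            push Not at hc
            have h3 := Nat.count_nth_of_lt_card_finite hf hc
            have h4 := Nat.nth_mem_of_lt_card hf hc
            have h5 := h (Nat.nth (fun i => s i = true) v + 1)
            unfold cn at h5
            rw [Nat.count_succ, h3, if_pos h4] at h5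
            omega
          rw [h1]; simp
        omega
    · rintro (⟨_, n, hn, hk⟩ | ⟨h, hk⟩)
      · rw [← bn_eq_F hn, hk]
      · have : F s v = 0 := by
          unfold F
          have h1 : Nat.nth (fun i => s i = true) v = 0 := by
            rw [Nat.nth_eq_zero]
            right
            push Not at h
            have hf : (Set.ofPred fun i => s i = true).Finite := by
              by_contra hinf
              have := Nat.count_nth_of_infinite (p := fun i => s i = true) hinf (v + 1)
              have h2 := h (Nat.nth (fun i => s i = true) (v + 1))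
              unfold cn at h2
              omega
            refine ⟨hf, ?_⟩
            by_contra hc
            push Not at hc
            have h3 := Nat.count_nth_of_lt_card_finite hf hc
            have h4 := Nat.nth_mem_of_lt_card hf hc
            have h5 := h (Nat.nth (fun i => s i = true) v + 1)
            unfold cn at h5
            rw [Nat.count_succ, h3, if_pos h4] at h5
            omega
          rw [h1]; simp
        omega
  rw [h]
  refine MeasurableSet.union ((measurableSet_hit v).inter ?_) ((measurableSet_hit v).compl.inter ?_)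
  · have : {s : ℕ → Bool | ∃ n, v < cn n s ∧ bn v n s = k} =
        ⋃ n, ({s | v < cn n s} ∩ {s | bn v n s = k}) := by
      ext s; simp
    rw [this]
    exact MeasurableSet.iUnion fun n => (measurableSet_lt measurable_const (measurable_cn n)).inter
      (measurableSet_eq_fun (measurable_bn v n) measurable_const)
  · by_cases hk : k = 0
    · simp [hk]
    · simp [hk]

end Pool.Agent.K7.H95.ERW
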