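import Pool.Agent.K7.H95.ERW.Chain3

set_option autoImplicit false

open MeasureTheory ProbabilityTheory Filter Topology
open scoped ENNReal NNReal

namespace Pool.Agent.K7.H95.ERW

variable {J : Measure ((ℕ → unitInterval) × (ℕ → Bool))}

lemma int_hn [IsProbabilityMeasure J] (K : ℝ) (v n : ℕ) : Integrable (fun x => hn K v n x.2) J := by
  have m3 : Measurable fun x : (ℕ → unitInterval) × (ℕ → Bool) => xn v n x.2 :=
    (measurable_xn v n).comp measurable_snd
  have h1 : Integrable (fun x => xn v n x.2 ^ 2) J := by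
    refine int_bdd (m3.pow_const 2) ⟨(v + 1 + n) ^ 2, fun x => ?_⟩
    rw [abs_pow]
    exact pow_le_pow_left₀ (abs_nonneg _) (bdd_xn v n x.2) 2
  unfold hn
  exact (h1.add ((int_an v n).const_mul 2)).sub ((int_xn v n).const_mul (2 * K))

lemma sq_bn_le (v n : ℕ) (s : ℕ → Bool) : (bn v n s : ℝ) ^ 2 ≤ hn 0 v n s := by
  unfold hn xn
  have h1 : (0 : ℝ) ≤ an v n s := Nat.cast_nonneg _
  have h2 : (0 : ℝ) ≤ bn v n s := Nat.cast_nonneg _
  nlinarith [mul_nonneg h1 h2]

/-- Fatou's lemma for the second moment -/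
lemma second_moment_le [IsProbabilityMeasure J] (hJ : IsStack J) (v : ℕ) {B : ℝ}
    (h : ∀ᶠ n in atTop, ∫ x, hn 0 v n x.2 ∂J ≤ B) :
    Integrable (fun x => (F x.2 v : ℝ) ^ 2) J ∧ ∫ x, (F x.2 v : ℝ) ^ 2 ∂J ≤ B := by
  have hm : Measurable fun x : (ℕ → unitInterval) × (ℕ → Bool) => (F x.2 v : ℝ) ^ 2 :=
    (measurable_from_nat.comp ((measurable_F v).comp measurable_snd)).pow_const 2
  have hmb : ∀ n, Measurable fun x : (ℕ → unitInterval) × (ℕ → Bool) => (bn v n x.2 : ℝ) ^ 2 :=
    fun n => (measurable_from_nat.comp ((measurable_bn v n).comp measurable_snd)).pow_const 2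
  have hb2 : ∀ n, Integrable (fun x => (bn v n x.2 : ℝ) ^ 2) J := fun n =>
    int_bdd (hmb n) ⟨(n : ℝ) ^ 2, fun x => by
      rw [abs_pow, Nat.abs_cast]
      exact pow_le_pow_left₀ (Nat.cast_nonneg _) (by exact_mod_cast bn_le v n x.2) 2⟩
  have hB0 : 0 ≤ B := by
    obtain ⟨n, hn⟩ := h.exists
    refine le_trans ?_ hn
    refine integral_nonneg fun x => ?_
    exact (sq_nonneg _).trans (sq_bn_le v n x.2)
  have h1 : ∫⁻ x, ENNReal.ofReal ((F x.2 v : ℝ) ^ 2) ∂J ≤ ENNReal.ofReal B := by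
    calc ∫⁻ x, ENNReal.ofReal ((F x.2 v : ℝ) ^ 2) ∂J
        ≤ ∫⁻ x, liminf (fun n => ENNReal.ofReal ((bn v n x.2 : ℝ) ^ 2)) atTop ∂J := by
          refine lintegral_mono_ae ?_
          filter_upwards [good_ae hJ] with x hx
          have h2 := ((bn_tendsto (hx v)).pow 2)
          have h3 := (ENNReal.continuous_ofReal.tendsto _).comp h2
          exact (h3.liminf_eq).ge
      _ ≤ liminf (fun n => ∫⁻ x, ENNReal.ofReal ((bn v n x.2 : ℝ) ^ 2) ∂J) atTop :=
          lintegral_liminf_le (fun n => ENNReal.measurable_ofReal.comp (hmb n))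
      _ ≤ ENNReal.ofReal B := by
          refine liminf_le_of_frequently_le' ?_
          refine (h.mono fun n hn => ?_).frequently
          rw [← ofReal_integral_eq_lintegral_ofReal (hb2 n)
            (Eventually.of_forall fun x => sq_nonneg _)]
          refine ENNReal.ofReal_le_ofReal (le_trans ?_ hn)
          exact integral_mono (hb2 n) (int_hn 0 v n) (fun x => sq_bn_le v n x.2)
  have hi : Integrable (fun x => (F x.2 v : ℝ) ^ 2) J := by
    refine ⟨hm.aestronglyMeasurable, ?_⟩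
    rw [hasFiniteIntegral_iff_ofReal (Eventually.of_forall fun x => sq_nonneg _)]
    exact lt_of_le_of_lt h1 ENNReal.ofReal_lt_top
  refine ⟨hi, ?_⟩
  rw [← ENNReal.ofReal_le_ofReal_iff hB0,
    ofReal_integral_eq_lintegral_ofReal hi (Eventually.of_forall fun x => sq_nonneg _)]
  exact h1

/-- general bound for the second moment -/
lemma second_moment_basic [IsProbabilityMeasure J] (hJ : IsStack J) (v : ℕ) :
    Integrable (fun x => (F x.2 v : ℝ) ^ 2) J ∧
      ∫ x, (F x.2 v : ℝ) ^ 2 ∂J ≤ (v + 1) ^ 2 + 2 * (v + 1) := by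
  refine second_moment_le hJ v (Eventually.of_forall fun n => ?_)
  rw [mean_h hJ]
  have := Finset.sum_nonneg (s := Finset.range n) fun k _ => term_nonneg hJ v k
  linarith

/-- the second moment when there is some drift in the first `M` cookies -/
lemma second_moment_M [IsProbabilityMeasure J] (hJ : IsStack J) {v M : ℕ} (hM : M ≤ v + 1) :
    ∫ x, (F x.2 v : ℝ) ^ 2 ∂J ≤
      (v + 1) ^ 2 + 2 * (v + 1) - (2 * v + 3) * (∑ k ∈ Finset.range M, ed J k) + 2 * (M : ℝ) ^ 2 := by
  refine (second_moment_le hJ v ?_).2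
  filter_upwards [eventually_ge_atTop M] with n hn
  rw [mean_h hJ]
  have h1 : ∑ k ∈ Finset.range M, ((2 * v + 3) * ed J k - 2 * k) ≤
      ∑ k ∈ Finset.range n, ∫ x, (zn v k x.2 * (2 * xn v k x.2 + 1 - 2 * 0)) * dr k x.1 ∂J := by
    calc ∑ k ∈ Finset.range M, ((2 * v + 3) * ed J k - 2 * k)
        ≤ ∑ k ∈ Finset.range M, ∫ x, (zn v k x.2 * (2 * xn v k x.2 + 1 - 2 * 0)) * dr k x.1 ∂J := by
          refine Finset.sum_le_sum fun k hk => term_ge hJ ?_
          have := Finset.mem_range.1 hk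
          omega
      _ ≤ _ := by
          refine Finset.sum_le_sum_of_subset_of_nonneg ?_ (fun k _ _ => term_nonneg hJ v k)
          exact Finset.range_mono hn
  rw [Finset.sum_sub_distrib, ← Finset.mul_sum] at h1
  have h2 : ∑ k ∈ Finset.range M, (2 * (k : ℝ)) ≤ 2 * (M : ℝ) ^ 2 := by
    calc ∑ k ∈ Finset.range M, (2 * (k : ℝ)) ≤ ∑ k ∈ Finset.range M, (2 * (M : ℝ)) := by
          refine Finset.sum_le_sum fun k hk => ?_
          have : (k : ℝ) ≤ M := by exact_mod_cast (Finset.mem_range.1 hk).le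
          linarith
      _ = 2 * (M : ℝ) ^ 2 := by simp; ring
  linarith

/-- **(B)** with drift more than 2 -/
theorem drift_down [IsProbabilityMeasure J] (hJ : IsStack J) {M : ℕ}
    (hM : 2 < ∑ k ∈ Finset.range M, ed J k) :
    ∃ ε C : ℝ, 0 < ε ∧ ∀ v : ℕ, ∫ x, (F x.2 v : ℝ) ^ 2 ∂J ≤ (v : ℝ) ^ 2 - ε * v + C := by
  set S := ∑ k ∈ Finset.range M, ed J k with hS
  refine ⟨2 * (S - 2), 3 + 2 * (M : ℝ) ^ 2 + (4 + 2 * (S - 2)) * M, by linarith, fun v => ?_⟩
  have hM0 : (0 : ℝ) ≤ M := Nat.cast_nonneg _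
  have hv0 : (0 : ℝ) ≤ v := Nat.cast_nonneg _
  rcases le_or_gt M (v + 1) with h | h
  · have h1 := second_moment_M hJ h
    rw [← hS] at h1
    have h2 : 0 ≤ (4 + 2 * (S - 2)) * (M : ℝ) := mul_nonneg (by linarith) hM0
    nlinarith
  · have h1 := (second_moment_basic hJ v).2
    have h3 : (v : ℝ) ≤ M := by exact_mod_cast (by omega : v ≤ M)
    have h4 : (4 + 2 * (S - 2)) * (v : ℝ) ≤ (4 + 2 * (S - 2)) * M :=
      mul_le_mul_of_nonneg_left h3 (by linarith)
    nlinarith [sq_nonneg (M : ℝ)]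

lemma int_F [IsProbabilityMeasure J] (hJ : IsStack J) (v : ℕ) :
    Integrable (fun x => (F x.2 v : ℝ)) J := by
  have hm : Measurable fun x : (ℕ → unitInterval) × (ℕ → Bool) => (F x.2 v : ℝ) :=
    measurable_from_nat.comp ((measurable_F v).comp measurable_snd)
  refine Integrable.mono' ((integrable_const (1 : ℝ)).add (second_moment_basic hJ v).1)
    hm.aestronglyMeasurable (Eventually.of_forall fun x => ?_)
  rw [Real.norm_eq_abs, Nat.abs_cast]
  simp only [Pi.add_apply]
  nlinarith [sq_nonneg ((F x.2 v : ℝ) - 1)]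

lemma tendsto_zn_mul [IsProbabilityMeasure J] (hJ : IsStack J) (v : ℕ)
    {f : (ℕ → unitInterval) × (ℕ → Bool) → ℝ} (hf : Integrable f J) :
    Tendsto (fun n => ∫ x, zn v n x.2 * f x ∂J) atTop (𝓝 0) := by
  have h := tendsto_integral_of_dominated_convergence (μ := J) (F := fun n x => zn v n x.2 * f x)
    (f := fun _ => (0 : ℝ)) (fun x => |f x|)
    (fun n => (((measurable_zn v n).comp measurable_snd).aestronglyMeasurable).mul
      hf.aestronglyMeasurable) hf.abs
    (fun n => Eventually.of_forall fun x => ?_) ?_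
  · simpa using h
  · rw [Real.norm_eq_abs, abs_mul]
    calc |zn v n x.2| * |f x| ≤ 1 * |f x| :=
          mul_le_mul_of_nonneg_right (bdd_zn v n x.2) (abs_nonneg _)
      _ = |f x| := one_mul _
  · filter_upwards [good_ae hJ] with x hx
    have := (zn_tendsto (hx v)).mul_const (f x)
    simpa using this

lemma an_le_zn (v n : ℕ) (s : ℕ → Bool) : (an v n s : ℝ) ≤ zn v n s * (v + 1) := by
  unfold zn
  split_ifs with h
  · rw [one_mul]; exact_mod_cast an_le v n s
  · unfold an
    rw [show v + 1 - cn n s = 0 by omega]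
    simp

/-- first moment -/
lemma mean_F_ge [IsProbabilityMeasure J] (hJ : IsStack J) (v : ℕ) {δ : ℝ}
    (hδ : ∀ n, ∑ k ∈ Finset.range n, ed J k ≤ δ) :
    (v : ℝ) + 1 - δ ≤ ∫ x, (F x.2 v : ℝ) ∂J := by
  have h1 : ∀ n, (v : ℝ) + 1 - δ ≤ ∫ x, (F x.2 v : ℝ) ∂J + ∫ x, zn v n x.2 * (v + 1) ∂J := by
    intro n
    have h2 := mean_x hJ v n (g := fun _ => 1) measurable_const (C := 1) (by simp)
    simp only [one_mul, integral_const, probReal_univ, smul_eq_mul, mul_one] at h2
    have h3 : ∑ k ∈ Finset.range n, ∫ x, zn v k x.2 * dr k x.1 ∂J ≤ δ := by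
      refine le_trans (Finset.sum_le_sum fun k _ => ?_) (hδ n)
      unfold ed
      refine integral_mono_ae ?_ (int_dr k) ?_
      · refine int_bdd (((measurable_zn v k).comp measurable_snd).mul
          ((measurable_dr k).comp measurable_fst)) ⟨1, fun x => ?_⟩
        rw [abs_mul]
        calc |zn v k x.2| * |dr k x.1| ≤ 1 * 1 :=
              mul_le_mul (bdd_zn v k x.2) (abs_dr_le k x.1) (abs_nonneg _) zero_le_one
          _ = 1 := by norm_num
      · filter_upwards [hJ.pos] with x hx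
        have := hx k
        have h4 := zn_le_one v k x.2
        nlinarith
    have h4 : ∫ x, xn v n x.2 ∂J ≤ ∫ x, (F x.2 v : ℝ) ∂J + ∫ x, zn v n x.2 * (v + 1) ∂J := by
      rw [← integral_add (int_F hJ v) ((int_zn v n).mul_const _)]
      refine integral_mono_ae (int_xn v n) ((int_F hJ v).add ((int_zn v n).mul_const _)) ?_
      filter_upwards [good_ae hJ] with x hx
      unfold xn
      have h5 : (bn v n x.2 : ℝ) ≤ F x.2 v := by exact_mod_cast bn_le_F (hx v) n
      have h6 := an_le_zn v n x.2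
      linarith
    linarith
  have h2 := tendsto_zn_mul hJ v (f := fun _ => (v : ℝ) + 1) (integrable_const _)
  have h3 := h2.const_add (∫ x, (F x.2 v : ℝ) ∂J)
  rw [add_zero] at h3
  exact ge_of_tendsto' h3 h1

/-- the test function -/
noncomputable def phi (K : ℝ) (x : ℝ) : ℝ := max (x ^ 2 - 2 * K * x) 0

lemma phi_nonneg (K x : ℝ) : 0 ≤ phi K x := le_max_right _ _

lemma phi_mono {K : ℝ} (hK : 0 ≤ K) {x y : ℝ} (hx : 0 ≤ x) (hxy : x ≤ y) : phi K x ≤ phi K y := by
  unfold phi
  rcases le_or_gt x (2 * K) with h | h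
  · rw [max_eq_right (by nlinarith)]
    exact le_max_right _ _
  · refine max_le_max ?_ le_rfl
    nlinarith

lemma int_phi [IsProbabilityMeasure J] (hJ : IsStack J) {K : ℝ} (hK : 0 ≤ K) (v : ℕ) :
    Integrable (fun x => phi K (F x.2 v)) J := by
  have hm : Measurable fun x : (ℕ → unitInterval) × (ℕ → Bool) => phi K (F x.2 v : ℝ) := by
    have h1 : Measurable fun x : (ℕ → unitInterval) × (ℕ → Bool) => (F x.2 v : ℝ) :=
      measurable_from_nat.comp ((measurable_F v).comp measurable_snd)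
    unfold phi
    exact ((h1.pow_const 2).sub (h1.const_mul (2 * K))).max measurable_const
  refine Integrable.mono' (second_moment_basic hJ v).1 hm.aestronglyMeasurable
    (Eventually.of_forall fun x => ?_)
  rw [Real.norm_of_nonneg (phi_nonneg _ _)]
  unfold phi
  have h0 : (0 : ℝ) ≤ F x.2 v := Nat.cast_nonneg _
  refine max_le ?_ (sq_nonneg _)
  have : 0 ≤ 2 * K * (F x.2 v : ℝ) := by positivity
  linarith

/-- lower bound for the expectation of the test function -/
lemma mean_phi_ge [IsProbabilityMeasure J] (hJ : IsStack J) {K : ℝ} (hK : 1 / 2 ≤ K) {v : ℕ}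
    (hv : 2 * K ≤ 2 * v + 3) {δ ρ : ℝ} (hδ : ∀ n, ∑ k ∈ Finset.range n, ed J k ≤ δ)
    (hρ : ∀ n, ∑ k ∈ Finset.range n, (if v + 1 ≤ k then ed J k else 0) ≤ ρ) :
    (v : ℝ) ^ 2 - 2 * K * v + 4 * v + 3 - 2 * K - (2 * v + 3 - 2 * K) * δ - (2 * K - 1) * ρ ≤
      ∫ x, phi K (F x.2 v) ∂J := by
  have hK0 : 0 ≤ K := by linarith
  set f : (ℕ → unitInterval) × (ℕ → Bool) → ℝ := fun x => (v + 1) * (2 * F x.2 v + v + 3) with hf
  have hfi : Integrable f J := by
    refine Integrable.const_mul ?_ _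
    exact (((int_F hJ v).const_mul 2).add (integrable_const _)).add (integrable_const _)
  have hi : ∀ n, Integrable (fun x => zn v n x.2 * f x) J := by
    intro n
    refine Integrable.mono' hfi.abs ((((measurable_zn v n).comp
      measurable_snd).aestronglyMeasurable).mul hfi.aestronglyMeasurable)
      (Eventually.of_forall fun x => ?_)
    rw [Real.norm_eq_abs, abs_mul]
    calc |zn v n x.2| * |f x| ≤ 1 * |f x| :=
          mul_le_mul_of_nonneg_right (bdd_zn v n x.2) (abs_nonneg _)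
      _ = |f x| := one_mul _
  have h1 : ∀ n, (v : ℝ) ^ 2 - 2 * K * v + 4 * v + 3 - 2 * K - (2 * v + 3 - 2 * K) * δ -
      (2 * K - 1) * ρ ≤ ∫ x, phi K (F x.2 v) ∂J + ∫ x, zn v n x.2 * f x ∂J := by
    intro n
    have h2 := mean_h hJ K v n
    have h3 : ∑ k ∈ Finset.range n,
        ∫ x, (zn v k x.2 * (2 * xn v k x.2 + 1 - 2 * K)) * dr k x.1 ∂J ≤
          (2 * v + 3 - 2 * K) * δ + (2 * K - 1) * ρ := by
      calc _ ≤ ∑ k ∈ Finset.range n, ((2 * v + 3 - 2 * K) * ed J k +
            (2 * K - 1) * (if v + 1 ≤ k then ed J k else 0)) :=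
            Finset.sum_le_sum fun k _ => term_le hJ hK v k
        _ = (2 * v + 3 - 2 * K) * ∑ k ∈ Finset.range n, ed J k +
            (2 * K - 1) * ∑ k ∈ Finset.range n, (if v + 1 ≤ k then ed J k else 0) := by
            rw [Finset.sum_add_distrib, Finset.mul_sum, Finset.mul_sum]
        _ ≤ _ := add_le_add (mul_le_mul_of_nonneg_left (hδ n) (by linarith))
            (mul_le_mul_of_nonneg_left (hρ n) (by linarith))
    have h4 : ∫ x, hn K v n x.2 ∂J ≤ ∫ x, phi K (F x.2 v) ∂J + ∫ x, zn v n x.2 * f x ∂J := by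
      rw [← integral_add (int_phi hJ hK0 v) (hi n)]
      refine integral_mono_ae (int_hn K v n) ((int_phi hJ hK0 v).add (hi n)) ?_
      filter_upwards [good_ae hJ] with x hx
      have h5 : (bn v n x.2 : ℝ) ≤ F x.2 v := by exact_mod_cast bn_le_F (hx v) n
      have h6 : (0 : ℝ) ≤ bn v n x.2 := Nat.cast_nonneg _
      have h7 := phi_mono hK0 h6 h5
      have h8 : (bn v n x.2 : ℝ) ^ 2 - 2 * K * bn v n x.2 ≤ phi K (bn v n x.2) := le_max_left _ _
      have h9 : (0 : ℝ) ≤ an v n x.2 := Nat.cast_nonneg _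
      have h10 : (an v n x.2 : ℝ) ≤ v + 1 := by exact_mod_cast an_le v n x.2
      have hv0 : (0 : ℝ) ≤ v := Nat.cast_nonneg _
      show hn K v n x.2 ≤ phi K (F x.2 v) + zn v n x.2 * ((v + 1) * (2 * F x.2 v + v + 3))
      unfold hn xn
      by_cases hc : cn n x.2 ≤ v
      · have h11 : zn v n x.2 = 1 := by unfold zn; rw [if_pos hc]
        rw [h11, one_mul]
        have h12 : (an v n x.2 : ℝ) * bn v n x.2 ≤ (v + 1) * F x.2 v :=
          mul_le_mul h10 h5 h6 (by linarith)
        have h13 : (an v n x.2 : ℝ) ^ 2 ≤ (v + 1) ^ 2 := pow_le_pow_left₀ h9 h10 2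
        have h14 : 0 ≤ K * (an v n x.2 : ℝ) := mul_nonneg hK0 h9
        nlinarith
      · have h11 : zn v n x.2 = 0 := by unfold zn; rw [if_neg hc]
        have h12 : an v n x.2 = 0 := by unfold an; omega
        rw [h11, h12]
        simp only [Nat.cast_zero, zero_add, mul_zero, zero_mul, add_zero]
        linarith
    linarith
  have h2 := tendsto_zn_mul hJ v hfi
  have h3 := h2.const_add (∫ x, phi K (F x.2 v) ∂J)
  rw [add_zero] at h3
  exact ge_of_tendsto' h3 h1

/-- **(A)** with drift at most 2: the test function has positive drift above `2 K` -/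
theorem drift_up [IsProbabilityMeasure J] (hJ : IsStack J)
    (hδ : ∀ n, ∑ k ∈ Finset.range n, ed J k ≤ 2) :
    ∃ K : ℝ, 4 ≤ K ∧ ∀ v : ℕ, 2 * K ≤ v → phi K v + 1 ≤ ∫ x, phi K (F x.2 v) ∂J := by
  have hs : Summable (ed J) :=
    summable_of_sum_range_le (c := 2) (fun n => ed_nonneg hJ n) hδ
  have ht := tendsto_sum_nat_add (f := ed J)
  have ht2 : ∀ᶠ i in atTop, ∑' k, ed J (k + i) < 1 / 2 := by
    have := (tendsto_order.1 (ht)).2 (1 / 2) (by norm_num)
    exact this
  obtain ⟨i, hi⟩ := ht2.exists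
  refine ⟨max 4 i, le_max_left _ _, fun v hv => ?_⟩
  set K : ℝ := max 4 (i : ℝ) with hK
  have hK4 : 4 ≤ K := le_max_left _ _
  have hKi : (i : ℝ) ≤ K := le_max_right _ _
  have hiv : i ≤ v := by
    have : (i : ℝ) ≤ v := by linarith
    exact_mod_cast this
  have hρ : ∀ n, ∑ k ∈ Finset.range n, (if v + 1 ≤ k then ed J k else 0) ≤ 1 / 2 := by
    intro n
    refine le_trans ?_ hi.le
    calc ∑ k ∈ Finset.range n, (if v + 1 ≤ k then ed J k else 0)
        ≤ ∑ k ∈ Finset.range (n + i), (if v + 1 ≤ k then ed J k else 0) := by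
          refine Finset.sum_le_sum_of_subset_of_nonneg (Finset.range_mono (by omega)) ?_
          intro k _ _
          split_ifs
          · exact ed_nonneg hJ k
          · exact le_rfl
      _ = ∑ k ∈ Finset.range n, (if v + 1 ≤ k + i then ed J (k + i) else 0) := by
          rw [add_comm n i, Finset.sum_range_add]
          have : ∑ x ∈ Finset.range i, (if v + 1 ≤ x then ed J x else 0) = 0 := by
            refine Finset.sum_eq_zero fun k hk => ?_
            rw [if_neg]
            have := Finset.mem_range.1 hk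
            omega
          rw [this, zero_add]
          refine Finset.sum_congr rfl fun k _ => ?_
          rw [add_comm i k]
      _ ≤ ∑ k ∈ Finset.range n, ed J (k + i) := by
          refine Finset.sum_le_sum fun k _ => ?_
          split_ifs
          · exact le_rfl
          · exact ed_nonneg hJ _
      _ ≤ ∑' k, ed J (k + i) :=
          ((summable_nat_add_iff i).2 hs).sum_le_tsum _ (fun k _ => ed_nonneg hJ _)
  have h1 := mean_phi_ge hJ (K := K) (by linarith) (v := v) (by linarith) hδ hρ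
  have h2 : phi K v = (v : ℝ) ^ 2 - 2 * K * v := by
    unfold phi
    rw [max_eq_left]
    nlinarith
  rw [h2]
  linarith

end Pool.Agent.K7.H95.ERW
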