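import Pool.Agent.K7.H95.ERW.Chain4

set_option autoImplicit false

open MeasureTheory ProbabilityTheory Filter Topology
open scoped ENNReal NNReal

namespace Pool.Agent.K7.H95.ERW

/-- put `t` in front of `s` -/
def cons {X : Type*} (p : X × (ℕ → X)) : ℕ → X
  | 0 => p.1
  | n + 1 => p.2 n

@[simp] lemma cons_zero {X : Type*} (p : X × (ℕ → X)) : cons p 0 = p.1 := rfl
@[simp] lemma cons_succ {X : Type*} (p : X × (ℕ → X)) (n : ℕ) : cons p (n + 1) = p.2 n := rfl

lemma measurable_cons {X : Type*} [MeasurableSpace X] : Measurable (cons : X × (ℕ → X) → ℕ → X) := by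
  refine measurable_pi_iff.2 fun n => ?_
  cases n with
  | zero => exact measurable_fst
  | succ n => exact (measurable_pi_apply n).comp measurable_snd

lemma map_cons {X : Type*} [MeasurableSpace X] (Q : Measure X) [IsProbabilityMeasure Q] :
    (Q.prod (Measure.infinitePi fun _ : ℕ => Q)).map cons = Measure.infinitePi fun _ : ℕ => Q := by
  classical
  refine Measure.eq_infinitePi _ fun s t ht => ?_
  rw [Measure.map_apply measurable_cons
    (MeasurableSet.pi s.countable_toSet (fun i _ => ht i))]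
  have h : (cons : X × (ℕ → X) → ℕ → X) ⁻¹' Set.pi s t =
      (if 0 ∈ s then t 0 else Set.univ) ×ˢ
        (Set.pi ((s.erase 0).image Nat.pred : Finset ℕ) fun i => t (i + 1)) := by
    ext p
    simp only [Set.mem_preimage, Set.mem_pi, Set.mem_prod, Finset.coe_image, Finset.coe_erase,
      Finset.mem_coe]
    constructor
    · intro hp
      refine ⟨?_, ?_⟩
      · split_ifs with h0
        · exact hp 0 h0
        · trivial
      · rintro i ⟨j, ⟨hj, hj0⟩, rfl⟩
        have hj1 : j ≠ 0 := by simpa using hj0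
        have h1 := hp j hj
        obtain ⟨k, rfl⟩ := Nat.exists_eq_succ_of_ne_zero hj1
        simpa using h1
    · rintro ⟨h1, h2⟩ i hi
      cases i with
      | zero => rw [if_pos hi] at h1; exact h1
      | succ i => exact h2 i ⟨i + 1, ⟨hi, by simp⟩, by simp⟩
  rw [h, Measure.prod_prod, Measure.infinitePi_pi _ (fun i _ => ht (i + 1))]
  have h2 : ∏ i ∈ (s.erase 0).image Nat.pred, Q (t (i + 1)) = ∏ i ∈ s.erase 0, Q (t i) := by
    rw [Finset.prod_image]
    · refine Finset.prod_congr rfl fun i hi => ?_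
      have : i ≠ 0 := (Finset.mem_erase.1 hi).1
      rw [show Nat.pred i + 1 = i by simp; omega]
    · intro i hi j hj hij
      have hi1 : i ≠ 0 := (Finset.mem_erase.1 hi).1
      have hj1 : j ≠ 0 := (Finset.mem_erase.1 hj).1
      simp only [Nat.pred_eq_sub_one] at hij
      omega
  rw [h2]
  split_ifs with h0
  · rw [Finset.mul_prod_erase s (fun i => Q (t i)) h0]
  · rw [measure_univ, one_mul, Finset.erase_eq_of_notMem h0]

/-- The backward iterates: `D m s = F (s 0) (F (s 1) (⋯ F (s (m-1)) 0))`. -/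
noncomputable def D : ℕ → (ℕ → ℕ → Bool) → ℕ
  | 0, _ => 0
  | m + 1, s => F (s 0) (D m fun k => s (k + 1))

lemma D_cons (m : ℕ) (p : (ℕ → Bool) × (ℕ → ℕ → Bool)) : D (m + 1) (cons p) = F p.1 (D m p.2) := rfl

lemma measurable_F2 {X : Type*} [MeasurableSpace X] {f : X → ℕ → Bool} {g : X → ℕ}
    (hf : Measurable f) (hg : Measurable g) : Measurable (fun x => F (f x) (g x)) := by
  have h : Measurable fun p : (ℕ → Bool) × ℕ => F p.1 p.2 :=
    measurable_from_prod_countable_left fun v => measurable_F v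
  exact h.comp (hf.prodMk hg)

lemma measurable_D (m : ℕ) : Measurable (D m) := by
  induction m with
  | zero => exact measurable_const
  | succ m ih =>
    have : D (m + 1) = fun s => F (s 0) (D m fun k => s (k + 1)) := rfl
    rw [this]
    refine measurable_F2 (measurable_pi_apply 0) (ih.comp ?_)
    exact measurable_pi_iff.2 fun k => measurable_pi_apply (k + 1)

lemma D_mono {s : ℕ → ℕ → Bool} (hs : ∀ k, Good (s k)) : Monotone (fun m => D m s) := by
  refine monotone_nat_of_le_succ fun m => ?_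
  induction m generalizing s with
  | zero => simp [D]
  | succ m ih => exact F_mono (hs 0) (ih fun k => hs (k + 1))

/-- `∫ f(s) dμ = ∫∫ f(t, s) dQ dμ` -/
lemma lintegral_cons {X : Type*} [MeasurableSpace X] (Q : Measure X) [IsProbabilityMeasure Q]
    {f : (ℕ → X) → ℝ≥0∞} (hf : Measurable f) :
    ∫⁻ s, f s ∂(Measure.infinitePi fun _ : ℕ => Q) =
      ∫⁻ s, ∫⁻ t, f (cons (t, s)) ∂Q ∂(Measure.infinitePi fun _ : ℕ => Q) := by
  conv_lhs => rw [← map_cons Q]
  rw [lintegral_map hf measurable_cons]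
  exact lintegral_prod_symm' _ (hf.comp measurable_cons)

lemma map_shift {X : Type*} [MeasurableSpace X] (Q : Measure X) [IsProbabilityMeasure Q] :
    (Measure.infinitePi fun _ : ℕ => Q).map (fun s k => s (k + 1)) =
      Measure.infinitePi fun _ : ℕ => Q :=
  Measure.map_infinitePi_infinitePi_of_inj (P := fun _ : ℕ => Q) (f := fun k => k + 1)
    (add_left_injective 1)

/-- moments of the next iterate -/
lemma next_moment (Q : Measure (ℕ → Bool)) [IsProbabilityMeasure Q] {f : ℕ → ℝ} (hf : ∀ v, 0 ≤ f v)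
    (hi : ∀ v, Integrable (fun t => f (F t v)) Q) (m : ℕ)
    (hm : Integrable (fun s => ∫ t, f (F t (D m s)) ∂Q) (Measure.infinitePi fun _ : ℕ => Q)) :
    Integrable (fun s => f (D (m + 1) s)) (Measure.infinitePi fun _ : ℕ => Q) ∧
      ∫ s, f (D (m + 1) s) ∂(Measure.infinitePi fun _ : ℕ => Q) =
        ∫ s, (∫ t, f (F t (D m s)) ∂Q) ∂(Measure.infinitePi fun _ : ℕ => Q) := by
  have hmeas : Measurable fun s => f (D (m + 1) s) := measurable_from_nat.comp (measurable_D _)
  have h1 : ∫⁻ s, ENNReal.ofReal (f (D (m + 1) s)) ∂(Measure.infinitePi fun _ : ℕ => Q) =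
      ∫⁻ s, ENNReal.ofReal (∫ t, f (F t (D m s)) ∂Q) ∂(Measure.infinitePi fun _ : ℕ => Q) := by
    refine (lintegral_cons Q (f := fun s => ENNReal.ofReal (f (D (m + 1) s)))
      (ENNReal.measurable_ofReal.comp hmeas)).trans ?_
    refine lintegral_congr fun s => ?_
    rw [ofReal_integral_eq_lintegral_ofReal (hi _) (Eventually.of_forall fun t => hf _)]
    rfl
  have h0 : ∀ s, 0 ≤ ∫ t, f (F t (D m s)) ∂Q := fun s => integral_nonneg fun t => hf _
  rw [← ofReal_integral_eq_lintegral_ofReal hm (Eventually.of_forall h0)] at h1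
  have h2 : Integrable (fun s => f (D (m + 1) s)) (Measure.infinitePi fun _ : ℕ => Q) := by
    refine ⟨hmeas.aestronglyMeasurable, ?_⟩
    rw [hasFiniteIntegral_iff_ofReal (Eventually.of_forall fun s => hf _), h1]
    exact ENNReal.ofReal_lt_top
  refine ⟨h2, ?_⟩
  rw [← ofReal_integral_eq_lintegral_ofReal h2 (Eventually.of_forall fun s => hf _)] at h1
  exact (ENNReal.ofReal_eq_ofReal_iff (integral_nonneg fun s => hf _)
    (integral_nonneg fun s => h0 s)).1 h1

/-- second moments of the iterates -/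
lemma sq_moment (Q : Measure (ℕ → Bool)) [IsProbabilityMeasure Q]
    (h2 : ∀ v : ℕ, Integrable (fun t => (F t v : ℝ) ^ 2) Q ∧
      ∫ t, (F t v : ℝ) ^ 2 ∂Q ≤ (v + 1) ^ 2 + 2 * (v + 1)) (m : ℕ) :
    Integrable (fun s => (D m s : ℝ) ^ 2) (Measure.infinitePi fun _ : ℕ => Q) ∧
      Integrable (fun s => ∫ t, (F t (D m s) : ℝ) ^ 2 ∂Q) (Measure.infinitePi fun _ : ℕ => Q) := by
  have key : ∀ m, Integrable (fun s => (D m s : ℝ) ^ 2) (Measure.infinitePi fun _ : ℕ => Q) →
      Integrable (fun s => ∫ t, (F t (D m s) : ℝ) ^ 2 ∂Q) (Measure.infinitePi fun _ : ℕ => Q) := by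
    intro m hm
    have hmeas : Measurable fun s : ℕ → ℕ → Bool => ∫ t, (F t (D m s) : ℝ) ^ 2 ∂Q :=
      (measurable_from_nat (f := fun v => ∫ t, (F t v : ℝ) ^ 2 ∂Q)).comp (measurable_D m)
    refine Integrable.mono' ((hm.const_mul 3).add (integrable_const (7 : ℝ)))
      hmeas.aestronglyMeasurable (Eventually.of_forall fun s => ?_)
    rw [Real.norm_of_nonneg (integral_nonneg fun t => sq_nonneg _)]
    refine (h2 (D m s)).2.trans ?_
    simp only [Pi.add_apply]
    nlinarith [sq_nonneg ((D m s : ℝ) - 1)]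
  induction m with
  | zero =>
    have h0 : Integrable (fun s : ℕ → ℕ → Bool => (D 0 s : ℝ) ^ 2)
        (Measure.infinitePi fun _ : ℕ => Q) := by
      have : (fun s : ℕ → ℕ → Bool => (D 0 s : ℝ) ^ 2) = fun _ => 0 := by
        funext s; simp [D]
      rw [this]; exact integrable_zero _ _ _
    exact ⟨h0, key 0 h0⟩
  | succ m ih =>
    have h3 := next_moment Q (f := fun v => (v : ℝ) ^ 2) (fun v => sq_nonneg _)
      (fun v => (h2 v).1) m ih.2
    exact ⟨h3.1, key _ h3.1⟩

/-- **(B)**: bounded means -/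
theorem mean_bounded (Q : Measure (ℕ → Bool)) [IsProbabilityMeasure Q]
    (hgood : ∀ᵐ t ∂Q, Good t)
    (h2 : ∀ v : ℕ, Integrable (fun t => (F t v : ℝ) ^ 2) Q ∧
      ∫ t, (F t v : ℝ) ^ 2 ∂Q ≤ (v + 1) ^ 2 + 2 * (v + 1))
    {ε C : ℝ} (hε : 0 < ε) (h : ∀ v : ℕ, ∫ t, (F t v : ℝ) ^ 2 ∂Q ≤ (v : ℝ) ^ 2 - ε * v + C) (m : ℕ) :
    ∫ s, (D m s : ℝ) ∂(Measure.infinitePi fun _ : ℕ => Q) ≤ C / ε := by
  have hs := sq_moment Q h2
  have hgood' : ∀ᵐ s ∂(Measure.infinitePi fun _ : ℕ => Q), ∀ k, Good (s k) := by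
    rw [ae_all_iff]
    intro k
    exact (measurePreserving_eval_infinitePi (fun _ : ℕ => Q) k).quasiMeasurePreserving.ae hgood
  have hD1 : Integrable (fun s => (D m s : ℝ)) (Measure.infinitePi fun _ : ℕ => Q) := by
    refine Integrable.mono' ((hs m).1.add (integrable_const (1 : ℝ)))
      (measurable_from_nat.comp (measurable_D m)).aestronglyMeasurable
      (Eventually.of_forall fun s => ?_)
    rw [Real.norm_eq_abs, Nat.abs_cast]
    simp only [Pi.add_apply]
    nlinarith [sq_nonneg ((D m s : ℝ) - 1)]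
  have h3 : ∫ s, (D m s : ℝ) ^ 2 ∂(Measure.infinitePi fun _ : ℕ => Q) ≤
      ∫ s, (D (m + 1) s : ℝ) ^ 2 ∂(Measure.infinitePi fun _ : ℕ => Q) := by
    refine integral_mono_ae (hs m).1 (hs (m + 1)).1 ?_
    filter_upwards [hgood'] with s hs
    have : D m s ≤ D (m + 1) s := D_mono hs (Nat.le_succ m)
    have h4 : (D m s : ℝ) ≤ D (m + 1) s := by exact_mod_cast this
    exact pow_le_pow_left₀ (Nat.cast_nonneg _) h4 2
  have h4 := (next_moment Q (f := fun v => (v : ℝ) ^ 2) (fun v => sq_nonneg _)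
      (fun v => (h2 v).1) m (hs m).2).2
  rw [h4] at h3
  have h5 : ∫ s, (∫ t, (F t (D m s) : ℝ) ^ 2 ∂Q) ∂(Measure.infinitePi fun _ : ℕ => Q) ≤
      ∫ s, ((D m s : ℝ) ^ 2 - ε * D m s + C) ∂(Measure.infinitePi fun _ : ℕ => Q) := by
    refine integral_mono (hs m).2 (((hs m).1.sub (hD1.const_mul ε)).add (integrable_const C))
      (fun s => ?_)
    exact h (D m s)
  have h6 : ∫ s, ((D m s : ℝ) ^ 2 - ε * D m s + C) ∂(Measure.infinitePi fun _ : ℕ => Q) =
      ∫ s, (D m s : ℝ) ^ 2 ∂(Measure.infinitePi fun _ : ℕ => Q) -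
        ε * ∫ s, (D m s : ℝ) ∂(Measure.infinitePi fun _ : ℕ => Q) + C := by
    have e1 := integral_add ((hs m).1.sub (hD1.const_mul ε)) (integrable_const C)
    have e2 := integral_sub (hs m).1 (hD1.const_mul ε)
    simp only [Pi.sub_apply, Pi.add_apply, integral_const, probReal_univ, smul_eq_mul, one_mul,
      integral_const_mul] at e1 e2
    rw [e1, e2]
  rw [le_div_iff₀ hε]
  linarith

end Pool.Agent.K7.H95.ERW
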