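import Pool.Agent.K7.H95.ERW.Chain5

set_option autoImplicit false

open MeasureTheory ProbabilityTheory Filter Topology
open scoped ENNReal NNReal

namespace Pool.Agent.K7.H95.ERW

/-- the test function, linear above `L` -/
noncomputable def phiL (K L x : ℝ) : ℝ := if x ≤ L then phi K x else 2 * (L - K) * x - L ^ 2

lemma phi_ge (K x : ℝ) : x ^ 2 - 2 * K * x ≤ phi K x := le_max_left _ _

lemma phi_eq {K x : ℝ} (hK : 0 ≤ K) (hx : 2 * K ≤ x) : phi K x = x ^ 2 - 2 * K * x := by
  unfold phi; rw [max_eq_left]; nlinarith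

lemma phi_zero {K x : ℝ} (hx0 : 0 ≤ x) (hx : x ≤ 2 * K) : phi K x = 0 := by
  unfold phi; rw [max_eq_right]; nlinarith

lemma phiL_nonneg {K L x : ℝ} (hK : 0 ≤ K) (hL : 2 * K ≤ L) : 0 ≤ phiL K L x := by
  unfold phiL
  split_ifs with h
  · exact phi_nonneg _ _
  · push Not at h
    nlinarith

lemma phiL_le {K L x : ℝ} (hK : 0 ≤ K) (hL : 2 * K ≤ L) : phiL K L x ≤ phi K x := by
  unfold phiL
  split_ifs with h
  · exact le_rfl
  · push Not at h
    rw [phi_eq hK (by linarith)]
    nlinarith [sq_nonneg (x - L)]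

lemma phiL_linear {K L x : ℝ} (hK : 0 ≤ K) (hL : 2 * K ≤ L) (hx : 0 ≤ x) :
    phiL K L x ≤ 2 * L * x + L ^ 2 := by
  unfold phiL
  split_ifs with h
  · unfold phi
    refine max_le ?_ ?_
    · nlinarith [mul_nonneg hK hx]
    · nlinarith [mul_nonneg hK hx]
  · push Not at h
    nlinarith [sq_nonneg L, mul_nonneg hK hx]

/-- convexity -/
lemma phiL_subgrad {K L : ℝ} (hK : 0 ≤ K) (hL : 2 * K ≤ L) {x : ℝ} (hx : 0 ≤ x) :
    ∃ p : ℝ, 0 ≤ p ∧ p ≤ 2 * x ∧ ∀ y, 0 ≤ y → phiL K L x + p * (y - x) ≤ phiL K L y := by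
  rcases le_or_gt x (2 * K) with h | h
  · refine ⟨0, le_rfl, by linarith, fun y hy => ?_⟩
    have : phiL K L x = 0 := by
      unfold phiL
      rw [if_pos (by linarith), phi_zero hx h]
    rw [this]
    have := phiL_nonneg (x := y) hK hL
    linarith
  · rcases le_or_gt x L with h2 | h2
    · refine ⟨2 * x - 2 * K, by linarith, by linarith, fun y hy => ?_⟩
      have h3 : phiL K L x = x ^ 2 - 2 * K * x := by
        unfold phiL
        rw [if_pos h2, phi_eq hK h.le]
      rw [h3]
      unfold phiL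
      split_ifs with h4
      · have := phi_ge K y
        nlinarith [sq_nonneg (y - x)]
      · push Not at h4
        nlinarith [mul_nonneg (sub_nonneg.2 h2) (sub_nonneg.2 h2), mul_nonneg (sub_nonneg.2 h2)
          (sub_nonneg.2 h4.le)]
    · refine ⟨2 * (L - K), by linarith, by linarith, fun y hy => ?_⟩
      have h3 : phiL K L x = 2 * (L - K) * x - L ^ 2 := by
        unfold phiL
        rw [if_neg (not_le.2 h2)]
      rw [h3]
      unfold phiL
      split_ifs with h4
      · have := phi_ge K y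
        nlinarith [sq_nonneg (y - L)]
      · linarith

lemma measurable_phi (K : ℝ) : Measurable (phi K) := by
  unfold phi
  exact ((measurable_id.pow_const 2).sub (measurable_id.const_mul (2 * K))).max measurable_const

lemma measurable_phiL (K L : ℝ) : Measurable (phiL K L) := by
  unfold phiL
  exact Measurable.ite (measurableSet_le measurable_id measurable_const) (measurable_phi K)
    ((measurable_id.const_mul _).sub measurable_const)

/-- the limit of the iterates -/
noncomputable def Dinf (s : ℕ → ℕ → Bool) : ℕ := ⨆ m, D m s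

/-- the iterates of `s` are bounded -/
def Bdd (s : ℕ → ℕ → Bool) : Prop := ∃ B, ∀ m, D m s ≤ B

lemma measurable_Dinf : Measurable Dinf := by
  unfold Dinf
  exact Measurable.iSup measurable_D

lemma le_Dinf {s : ℕ → ℕ → Bool} (hb : Bdd s) (m : ℕ) : D m s ≤ Dinf s := by
  obtain ⟨B, hB⟩ := hb
  exact le_ciSup (f := fun m => D m s) ⟨B, by rintro _ ⟨m, rfl⟩; exact hB m⟩ m

lemma Dinf_eventually {s : ℕ → ℕ → Bool} (hs : ∀ k, Good (s k)) (hb : Bdd s) :
    ∀ᶠ m in atTop, D m s = Dinf s := by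
  obtain ⟨B, hB⟩ := hb
  have h1 : BddAbove (Set.range fun m => D m s) := ⟨B, by rintro _ ⟨m, rfl⟩; exact hB m⟩
  have h2 := Nat.sSup_mem (Set.range_nonempty fun m => D m s) h1
  obtain ⟨m0, hm0⟩ := h2
  filter_upwards [eventually_ge_atTop m0] with m hm
  have h3 : D m0 s ≤ D m s := D_mono hs hm
  have h4 := le_Dinf ⟨B, hB⟩ m
  have h5 : D m0 s = Dinf s := hm0
  omega

lemma Dinf_cons {t : ℕ → Bool} {s : ℕ → ℕ → Bool} (ht : Good t) (hs : ∀ k, Good (s k))
    (hb : Bdd s) : Bdd (cons (t, s)) ∧ Dinf (cons (t, s)) = F t (Dinf s) := by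
  have hg : ∀ k, Good (cons (t, s) k) := by
    intro k
    cases k with
    | zero => exact ht
    | succ k => exact hs k
  have h1 : ∀ᶠ m in atTop, D (m + 1) (cons (t, s)) = F t (Dinf s) := by
    filter_upwards [Dinf_eventually hs hb] with m hm
    rw [D_cons]
    simp only
    rw [hm]
  have h2 : Bdd (cons (t, s)) := by
    obtain ⟨m0, hm0⟩ := eventually_atTop.1 h1
    refine ⟨F t (Dinf s), fun m => ?_⟩
    have h3 : D m (cons (t, s)) ≤ D (max m m0 + 1) (cons (t, s)) := D_mono hg (by omega)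
    rw [hm0 (max m m0) (le_max_right _ _)] at h3
    exact h3
  refine ⟨h2, ?_⟩
  have h3 := Dinf_eventually hg h2
  have h4 : ∀ᶠ m in atTop, D (m + 1) (cons (t, s)) = Dinf (cons (t, s)) :=
    (tendsto_add_atTop_nat 1).eventually h3
  obtain ⟨m, hm1, hm2⟩ := (h1.and h4).exists
  rw [← hm1, ← hm2]

section stationary

variable (Q : Measure (ℕ → Bool)) [IsProbabilityMeasure Q]

/-- stationarity of the law of the limit -/
lemma stationary (hgood : ∀ᵐ t ∂Q, Good t)
    (hb : ∀ᵐ s ∂(Measure.infinitePi fun _ : ℕ => Q), Bdd s) (f : ℕ → ℝ≥0∞) :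
    ∫⁻ s, f (Dinf s) ∂(Measure.infinitePi fun _ : ℕ => Q) =
      ∫⁻ s, ∫⁻ t, f (F t (Dinf s)) ∂Q ∂(Measure.infinitePi fun _ : ℕ => Q) := by
  have hgood' : ∀ᵐ s ∂(Measure.infinitePi fun _ : ℕ => Q), ∀ k, Good (s k) := by
    rw [ae_all_iff]
    intro k
    exact (measurePreserving_eval_infinitePi (fun _ : ℕ => Q) k).quasiMeasurePreserving.ae hgood
  rw [lintegral_cons Q (f := fun s => f (Dinf s)) (measurable_from_nat.comp measurable_Dinf)]
  refine lintegral_congr_ae ?_
  filter_upwards [hgood', hb] with s hs hs2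
  refine lintegral_congr_ae ?_
  filter_upwards [hgood] with t ht
  rw [(Dinf_cons ht hs hs2).2]

/-- **(A)**: unbounded means -/
theorem mean_unbounded (hgood : ∀ᵐ t ∂Q, Good t)
    (h2 : ∀ v : ℕ, Integrable (fun t => (F t v : ℝ) ^ 2) Q ∧
      ∫ t, (F t v : ℝ) ^ 2 ∂Q ≤ (v + 1) ^ 2 + 2 * (v + 1))
    (h1 : ∀ v : ℕ, (v : ℝ) - 1 ≤ ∫ t, (F t v : ℝ) ∂Q)
    {K : ℝ} (hK : 0 ≤ K) (h : ∀ v : ℕ, 2 * K ≤ v → phi K v + 1 ≤ ∫ t, phi K (F t v) ∂Q)
    (hW : ∀ N : ℕ, 0 < Q {t | ∀ i < N, t i = false})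
    (hb : ∀ᵐ s ∂(Measure.infinitePi fun _ : ℕ => Q), Bdd s)
    (hfin : ∫⁻ s, (Dinf s : ℝ≥0∞) ∂(Measure.infinitePi fun _ : ℕ => Q) < ∞) : False := by
  set μ := Measure.infinitePi fun _ : ℕ => Q with hμ
  have hgood' : ∀ᵐ s ∂μ, ∀ k, Good (s k) := by
    rw [ae_all_iff]
    intro k
    exact (measurePreserving_eval_infinitePi (fun _ : ℕ => Q) k).quasiMeasurePreserving.ae hgood
  have mF : ∀ v, Measurable fun t => (F t v : ℝ) := fun v => measurable_from_nat.comp (measurable_F v)
  have iF : ∀ v, Integrable (fun t => (F t v : ℝ)) Q := by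
    intro v
    refine Integrable.mono' ((h2 v).1.add (integrable_const (1 : ℝ))) (mF v).aestronglyMeasurable
      (Eventually.of_forall fun t => ?_)
    rw [Real.norm_eq_abs, Nat.abs_cast]
    simp only [Pi.add_apply]
    nlinarith [sq_nonneg ((F t v : ℝ) - 1)]
  have iphi : ∀ v, Integrable (fun t => phi K (F t v)) Q := by
    intro v
    refine Integrable.mono' (h2 v).1 ((measurable_phi K).comp (mF v)).aestronglyMeasurable
      (Eventually.of_forall fun t => ?_)
    rw [Real.norm_of_nonneg (phi_nonneg _ _)]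
    unfold phi
    have h0 : (0 : ℝ) ≤ F t v := Nat.cast_nonneg _
    refine max_le ?_ (sq_nonneg _)
    have : 0 ≤ 2 * K * (F t v : ℝ) := by positivity
    linarith
  have iphiL : ∀ L, 2 * K ≤ L → ∀ v, Integrable (fun t => phiL K L (F t v)) Q := by
    intro L hL v
    refine Integrable.mono' (iphi v) ((measurable_phiL K L).comp (mF v)).aestronglyMeasurable
      (Eventually.of_forall fun t => ?_)
    rw [Real.norm_of_nonneg (phiL_nonneg hK hL)]
    exact phiL_le hK hL
  have iD : Integrable (fun s => (Dinf s : ℝ)) μ := by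
    refine ⟨(measurable_from_nat.comp measurable_Dinf).aestronglyMeasurable, ?_⟩
    rw [hasFiniteIntegral_iff_ofReal (Eventually.of_forall fun s => Nat.cast_nonneg _)]
    simpa using hfin
  -- h_L ≥ φ_L - 2 v
  have hlow : ∀ L, 2 * K ≤ L → ∀ v : ℕ, phiL K L v - 2 * v ≤ ∫ t, phiL K L (F t v) ∂Q := by
    intro L hL v
    obtain ⟨p, hp0, hp1, hp⟩ := phiL_subgrad hK hL (Nat.cast_nonneg v : (0 : ℝ) ≤ v)
    have h3 : ∫ t, (phiL K L v + p * ((F t v : ℝ) - v)) ∂Q ≤ ∫ t, phiL K L (F t v) ∂Q := by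
      refine integral_mono ?_ (iphiL L hL v) (fun t => hp _ (Nat.cast_nonneg _))
      exact (integrable_const _).add (((iF v).sub (integrable_const _)).const_mul p)
    have h4 : ∫ t, (phiL K L v + p * ((F t v : ℝ) - v)) ∂Q =
        phiL K L v + p * (∫ t, (F t v : ℝ) ∂Q - v) := by
      have e1 := integral_add (μ := Q) (integrable_const (phiL K L v))
        (((iF v).sub (integrable_const (v : ℝ))).const_mul p)
      have e2 := integral_sub (iF v) (integrable_const (v : ℝ))
      simp only [Pi.sub_apply, integral_const_mul, integral_const, probReal_univ, smul_eq_mul,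
        one_mul] at e1 e2
      rw [e1, e2]
    rw [h4] at h3
    have h5 := h1 v
    have h6 : -(2 * (v : ℝ)) ≤ p * (∫ t, (F t v : ℝ) ∂Q - v) := by
      have : p * (-1) ≤ p * (∫ t, (F t v : ℝ) ∂Q - v) :=
        mul_le_mul_of_nonneg_left (by linarith) hp0
      linarith
    linarith
  -- the function G_L
  set hh : ℝ → ℕ → ℝ := fun L v => ∫ t, phiL K L (F t v) ∂Q with hhh
  set G : ℝ → ℕ → ℝ := fun L v => hh L v - phiL K L v + 2 * v with hG
  have hG0 : ∀ L, 2 * K ≤ L → ∀ v, 0 ≤ G L v := by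
    intro L hL v
    have := hlow L hL v
    simp only [hG, hhh]
    linarith
  -- integrability
  have iphiLD : ∀ L, 2 * K ≤ L → Integrable (fun s => phiL K L (Dinf s)) μ := by
    intro L hL
    refine Integrable.mono' ((iD.const_mul (2 * L)).add (integrable_const (L ^ 2)))
      ((measurable_phiL K L).comp (measurable_from_nat.comp measurable_Dinf)).aestronglyMeasurable
      (Eventually.of_forall fun s => ?_)
    rw [Real.norm_of_nonneg (phiL_nonneg hK hL)]
    exact phiL_linear hK hL (Nat.cast_nonneg _)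
  have hint : ∀ L, 2 * K ≤ L → Integrable (fun s => hh L (Dinf s)) μ ∧
      ∫ s, hh L (Dinf s) ∂μ = ∫ s, phiL K L (Dinf s) ∂μ := by
    intro L hL
    have h3 := stationary Q hgood hb (fun v => ENNReal.ofReal (phiL K L v))
    have h4 : ∀ s, ∫⁻ t, ENNReal.ofReal (phiL K L (F t (Dinf s))) ∂Q =
        ENNReal.ofReal (hh L (Dinf s)) := by
      intro s
      rw [hhh, ofReal_integral_eq_lintegral_ofReal (iphiL L hL _)
        (Eventually.of_forall fun t => phiL_nonneg hK hL)]
    simp only [h4] at h3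
    rw [← ofReal_integral_eq_lintegral_ofReal (iphiLD L hL)
      (Eventually.of_forall fun t => phiL_nonneg hK hL)] at h3
    have h0 : ∀ v, 0 ≤ hh L v := fun v => integral_nonneg fun t => phiL_nonneg hK hL
    have h5 : Integrable (fun s => hh L (Dinf s)) μ := by
      refine ⟨((measurable_from_nat (f := hh L)).comp measurable_Dinf).aestronglyMeasurable, ?_⟩
      rw [hasFiniteIntegral_iff_ofReal (Eventually.of_forall fun s => h0 _), ← h3]
      exact ENNReal.ofReal_lt_top
    refine ⟨h5, ?_⟩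
    rw [← ofReal_integral_eq_lintegral_ofReal h5 (Eventually.of_forall fun s => h0 _)] at h3
    exact ((ENNReal.ofReal_eq_ofReal_iff (integral_nonneg fun s => phiL_nonneg hK hL)
      (integral_nonneg fun s => h0 _)).1 h3).symm
  have hGint : ∀ L, 2 * K ≤ L → ∫⁻ s, ENNReal.ofReal (G L (Dinf s)) ∂μ =
      ENNReal.ofReal (2 * ∫ s, (Dinf s : ℝ) ∂μ) := by
    intro L hL
    have i1 : Integrable (fun s => G L (Dinf s)) μ :=
      ((hint L hL).1.sub (iphiLD L hL)).add (iD.const_mul 2)
    rw [← ofReal_integral_eq_lintegral_ofReal i1 (Eventually.of_forall fun s => hG0 L hL _)]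
    congr 1
    have e1 := integral_add ((hint L hL).1.sub (iphiLD L hL)) (iD.const_mul 2)
    have e2 := integral_sub (hint L hL).1 (iphiLD L hL)
    simp only [Pi.sub_apply, integral_const_mul] at e1 e2
    rw [e2, (hint L hL).2, sub_self, zero_add] at e1
    exact e1
  -- pointwise limit of G_L
  have hlim : ∀ v : ℕ, Tendsto (fun n : ℕ => G (2 * K + n) v) atTop
      (𝓝 (∫ t, phi K (F t v) ∂Q - phi K v + 2 * v)) := by
    intro v
    have ev : ∀ x : ℝ, ∀ᶠ n : ℕ in atTop, phiL K (2 * K + n) x = phi K x := by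
      intro x
      obtain ⟨n0, hn0⟩ := exists_nat_ge x
      filter_upwards [eventually_ge_atTop n0] with n hn
      unfold phiL
      rw [if_pos]
      have : (n0 : ℝ) ≤ n := by exact_mod_cast hn
      linarith
    refine Tendsto.add (Tendsto.sub ?_ ?_) tendsto_const_nhds
    · refine tendsto_integral_of_dominated_convergence (fun t => phi K (F t v))
        (fun n => ((measurable_phiL K _).comp (mF v)).aestronglyMeasurable) (iphi v)
        (fun n => Eventually.of_forall fun t => ?_) (Eventually.of_forall fun t => ?_)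
      · have hL : 2 * K ≤ 2 * K + n := by
          have : (0 : ℝ) ≤ n := Nat.cast_nonneg n
          linarith
        rw [Real.norm_of_nonneg (phiL_nonneg hK hL)]
        exact phiL_le hK hL
      · exact tendsto_const_nhds.congr' ((ev _).mono fun n hn => hn.symm)
    · exact tendsto_const_nhds.congr' ((ev _).mono fun n hn => hn.symm)
  -- Fatou
  have hfatou : ∫⁻ s, ENNReal.ofReal (∫ t, phi K (F t (Dinf s)) ∂Q - phi K (Dinf s) + 2 * Dinf s) ∂μ ≤
      ENNReal.ofReal (2 * ∫ s, (Dinf s : ℝ) ∂μ) := by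
    calc ∫⁻ s, ENNReal.ofReal (∫ t, phi K (F t (Dinf s)) ∂Q - phi K (Dinf s) + 2 * Dinf s) ∂μ
        = ∫⁻ s, liminf (fun n : ℕ => ENNReal.ofReal (G (2 * K + n) (Dinf s))) atTop ∂μ := by
          refine lintegral_congr fun s => ?_
          exact (((ENNReal.continuous_ofReal.tendsto _).comp (hlim (Dinf s))).liminf_eq).symm
      _ ≤ liminf (fun n : ℕ => ∫⁻ s, ENNReal.ofReal (G (2 * K + n) (Dinf s)) ∂μ) atTop :=
          lintegral_liminf_le fun n => (measurable_from_nat
            (f := fun v => ENNReal.ofReal (G (2 * K + n) v))).comp measurable_Dinf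
      _ = ENNReal.ofReal (2 * ∫ s, (Dinf s : ℝ) ∂μ) := by
          have : (fun n : ℕ => ∫⁻ s, ENNReal.ofReal (G (2 * K + n) (Dinf s)) ∂μ) =
              fun _ => ENNReal.ofReal (2 * ∫ s, (Dinf s : ℝ) ∂μ) := by
            funext n
            refine hGint _ ?_
            have : (0 : ℝ) ≤ n := Nat.cast_nonneg n
            linarith
          rw [this, liminf_const]
  -- the event `Dinf ≥ 2 K` is null
  set A : Set (ℕ → ℕ → Bool) := {s | 2 * K ≤ (Dinf s : ℝ)} with hA
  have hAm : MeasurableSet A :=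
    measurableSet_le measurable_const (measurable_from_nat.comp measurable_Dinf)
  have hge : ∫⁻ s, (ENNReal.ofReal (2 * (Dinf s : ℝ)) + A.indicator 1 s) ∂μ ≤
      ENNReal.ofReal (2 * ∫ s, (Dinf s : ℝ) ∂μ) := by
    refine le_trans (lintegral_mono fun s => ?_) hfatou
    have h0 : (0 : ℝ) ≤ Dinf s := Nat.cast_nonneg _
    by_cases hs : s ∈ A
    · simp only [Set.indicator_of_mem hs, Pi.one_apply]
      rw [← ENNReal.ofReal_one, ← ENNReal.ofReal_add (by positivity) zero_le_one]
      refine ENNReal.ofReal_le_ofReal ?_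
      have := h (Dinf s) hs
      linarith
    · simp only [Set.indicator_of_notMem hs, add_zero]
      refine ENNReal.ofReal_le_ofReal ?_
      have h3 : phi K (Dinf s) = 0 := phi_zero h0 (by
        simp only [hA, Set.mem_ofPred_eq, not_le] at hs; exact hs.le)
      have h4 : 0 ≤ ∫ t, phi K (F t (Dinf s)) ∂Q := integral_nonneg fun t => phi_nonneg _ _
      rw [h3]
      linarith
  have hm2 : Measurable fun s => ENNReal.ofReal (2 * (Dinf s : ℝ)) :=
    (measurable_from_nat (f := fun v : ℕ => ENNReal.ofReal (2 * (v : ℝ)))).comp measurable_Dinf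
  rw [lintegral_add_left hm2, lintegral_indicator_one hAm] at hge
  have h5 : ∫⁻ s, ENNReal.ofReal (2 * (Dinf s : ℝ)) ∂μ = ENNReal.ofReal (2 * ∫ s, (Dinf s : ℝ) ∂μ) := by
    rw [← integral_const_mul, ofReal_integral_eq_lintegral_ofReal (iD.const_mul 2)
      (Eventually.of_forall fun s => by positivity)]
  rw [h5] at hge
  have hA0 : μ A = 0 := by
    by_contra hc
    have h6 : ENNReal.ofReal (2 * ∫ s, (Dinf s : ℝ) ∂μ) <
        ENNReal.ofReal (2 * ∫ s, (Dinf s : ℝ) ∂μ) + μ A :=
      ENNReal.lt_add_right ENNReal.ofReal_ne_top hc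
    exact absurd hge (not_le.2 h6)
  -- but it has positive probability
  obtain ⟨N, hN⟩ := exists_nat_ge (2 * K)
  have h7 : (fun s : ℕ → ℕ → Bool => s 0) ⁻¹' {t | ∀ i < N, t i = false} ≤ᵐ[μ] A := by
    filter_upwards [hgood', hb] with s hs hs2 h8
    have h9 : N ≤ D 1 s := by
      show N ≤ F (s 0) 0
      obtain ⟨m, hm1, hm2⟩ := exists_hit (hs 0 0)
      rw [F_eq hm1 hm2]
      by_contra hc
      push Not at hc
      have h10 : s 0 m = false := h8 m (by omega)
      rw [hm1] at h10
      exact absurd h10 (by simp)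
    have h10 := h9.trans (le_Dinf hs2 1)
    show 2 * K ≤ (Dinf s : ℝ)
    refine hN.trans ?_
    exact_mod_cast h10
  have h8 := measure_mono_ae h7
  rw [hA0] at h8
  have h9 : μ ((fun s : ℕ → ℕ → Bool => s 0) ⁻¹' {t | ∀ i < N, t i = false}) =
      Q {t | ∀ i < N, t i = false} := by
    refine (measurePreserving_eval_infinitePi (fun _ : ℕ => Q) 0).measure_preimage ?_
    refine MeasurableSet.nullMeasurableSet ?_
    have : {t : ℕ → Bool | ∀ i < N, t i = false} = ⋂ i ∈ Finset.range N, {t | t i = false} := by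
      ext t; simp
    rw [this]
    exact Finset.measurableSet_biInter _ fun i _ =>
      measurableSet_eq_fun (measurable_pi_apply i) measurable_const
  rw [h9] at h8
  exact absurd (hW N) (not_lt.2 h8)

end stationary

end Pool.Agent.K7.H95.ERW
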