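import Pool.Agent.K7.H95.ERW.Chain6

set_option autoImplicit false

open MeasureTheory ProbabilityTheory Filter Topology
open scoped ENNReal NNReal

namespace Pool.Agent.K7.H95.ERW

variable {J : Measure ((ℕ → unitInterval) × (ℕ → Bool))}

/-- the supremum of the means of the iterates -/
noncomputable def mD (Q : Measure (ℕ → Bool)) [IsProbabilityMeasure Q] : ℝ≥0∞ :=
  ⨆ m, ∫⁻ s, (D m s : ℝ≥0∞) ∂(Measure.infinitePi fun _ : ℕ => Q)

lemma good_all {Q : Measure (ℕ → Bool)} [IsProbabilityMeasure Q] (hgood : ∀ᵐ t ∂Q, Good t) :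
    ∀ᵐ s ∂(Measure.infinitePi fun _ : ℕ => Q), ∀ k, Good (s k) := by
  rw [ae_all_iff]
  intro k
  exact (measurePreserving_eval_infinitePi (fun _ : ℕ => Q) k).quasiMeasurePreserving.ae hgood

lemma mD_eq {Q : Measure (ℕ → Bool)} [IsProbabilityMeasure Q] (hgood : ∀ᵐ t ∂Q, Good t) :
    mD Q = ∫⁻ s, ⨆ m, (D m s : ℝ≥0∞) ∂(Measure.infinitePi fun _ : ℕ => Q) := by
  unfold mD
  refine (lintegral_iSup_ae (f := fun m s => (D m s : ℝ≥0∞))
    (fun m => (measurable_from_nat (f := fun v : ℕ => (v : ℝ≥0∞))).comp (measurable_D m)) ?_).symm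
  intro m
  filter_upwards [good_all hgood] with s hs
  have : D m s ≤ D (m + 1) s := D_mono hs (Nat.le_succ m)
  exact_mod_cast this

lemma bdd_ae {Q : Measure (ℕ → Bool)} [IsProbabilityMeasure Q] (hgood : ∀ᵐ t ∂Q, Good t)
    (h : mD Q < ∞) : ∀ᵐ s ∂(Measure.infinitePi fun _ : ℕ => Q), Bdd s := by
  rw [mD_eq hgood] at h
  have hm : Measurable fun s : ℕ → ℕ → Bool => ⨆ m, (D m s : ℝ≥0∞) :=
    Measurable.iSup fun m => (measurable_from_nat (f := fun v : ℕ => (v : ℝ≥0∞))).comp
      (measurable_D m)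
  filter_upwards [ae_lt_top hm h.ne] with s hs
  obtain ⟨B, hB⟩ := ENNReal.exists_nat_gt hs.ne
  refine ⟨B, fun m => ?_⟩
  have h1 : (D m s : ℝ≥0∞) ≤ ⨆ m, (D m s : ℝ≥0∞) := le_iSup (fun m => (D m s : ℝ≥0∞)) m
  exact_mod_cast (h1.trans hB.le)

lemma Dinf_cast {s : ℕ → ℕ → Bool} (hs : ∀ k, Good (s k)) (hb : Bdd s) :
    (Dinf s : ℝ≥0∞) = ⨆ m, (D m s : ℝ≥0∞) := by
  apply le_antisymm
  · obtain ⟨m, hm⟩ := (Dinf_eventually hs hb).exists
    rw [← hm]
    exact le_iSup (fun m => (D m s : ℝ≥0∞)) m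
  · exact iSup_le fun m => by exact_mod_cast le_Dinf hb m

lemma lintegral_Dinf {Q : Measure (ℕ → Bool)} [IsProbabilityMeasure Q] (hgood : ∀ᵐ t ∂Q, Good t)
    (h : mD Q < ∞) :
    ∫⁻ s, (Dinf s : ℝ≥0∞) ∂(Measure.infinitePi fun _ : ℕ => Q) = mD Q := by
  rw [mD_eq hgood]
  refine lintegral_congr_ae ?_
  filter_upwards [good_all hgood, bdd_ae hgood h] with s hs hb
  exact Dinf_cast hs hb

/-- transfer to the law of the instructions -/
lemma map_integral {f : (ℕ → Bool) → ℝ} (hf : Measurable f) :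
    ∫ t, f t ∂(J.map Prod.snd) = ∫ x, f x.2 ∂J :=
  integral_map measurable_snd.aemeasurable hf.aestronglyMeasurable

lemma map_integrable {f : (ℕ → Bool) → ℝ} (hf : Measurable f) :
    Integrable f (J.map Prod.snd) ↔ Integrable (fun x => f x.2) J :=
  integrable_map_measure hf.aestronglyMeasurable measurable_snd.aemeasurable

lemma measurableSet_Good : MeasurableSet {s : ℕ → Bool | Good s} := by
  unfold Good
  have : {s : ℕ → Bool | ∀ v, ∃ n, v < cn n s} = ⋂ v, {s : ℕ → Bool | ∃ n, v < cn n s} := by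
    ext s; simp
  rw [this]
  exact MeasurableSet.iInter measurableSet_hit

lemma good_map [IsProbabilityMeasure J] (hJ : IsStack J) : ∀ᵐ t ∂(J.map Prod.snd), Good t := by
  rw [ae_map_iff measurable_snd.aemeasurable measurableSet_Good]
  exact good_ae hJ

/-- **The mean of the number of left steps is bounded iff the drift is more than 2.** -/
theorem chain_iff [IsProbabilityMeasure J] (hJ : IsStack J)
    (hW : ∀ N : ℕ, 0 < J {x | ∀ i < N, x.2 i = false})
    (Q : Measure (ℕ → Bool)) [IsProbabilityMeasure Q] (hQ : Q = J.map Prod.snd) :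
    mD Q < ∞ ↔ ∃ M, 2 < ∑ k ∈ Finset.range M, ed J k := by
  subst hQ
  have mF : ∀ v, Measurable fun t => (F t v : ℝ) := fun v => measurable_from_nat.comp (measurable_F v)
  have hgood := good_map hJ
  have h2 : ∀ v : ℕ, Integrable (fun t => (F t v : ℝ) ^ 2) (J.map Prod.snd) ∧
      ∫ t, (F t v : ℝ) ^ 2 ∂(J.map Prod.snd) ≤ (v + 1) ^ 2 + 2 * (v + 1) := by
    intro v
    rw [map_integral ((mF v).pow_const 2), map_integrable ((mF v).pow_const 2)]
    exact second_moment_basic hJ v
  constructor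
  · intro h
    by_contra hc
    push Not at hc
    obtain ⟨K, hK4, hK⟩ := drift_up hJ hc
    refine mean_unbounded (J.map Prod.snd) hgood h2 ?_ (K := K) (by linarith) ?_ ?_
      (bdd_ae hgood h) (by rw [lintegral_Dinf hgood h]; exact h)
    · intro v
      rw [map_integral (mF v)]
      have := mean_F_ge hJ v hc
      linarith
    · intro v hv
      rw [map_integral (f := fun t => phi K (F t v)) ((measurable_phi K).comp (mF v))]
      exact hK v hv
    · intro N
      have hm : MeasurableSet {t : ℕ → Bool | ∀ i < N, t i = false} := by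
        have : {t : ℕ → Bool | ∀ i < N, t i = false} = ⋂ i ∈ Finset.range N, {t | t i = false} := by
          ext t; simp
        rw [this]
        exact Finset.measurableSet_biInter _ fun i _ =>
          measurableSet_eq_fun (measurable_pi_apply i) measurable_const
      rw [Measure.map_apply measurable_snd hm]
      exact hW N
  · rintro ⟨M, hM⟩
    obtain ⟨ε, C, hε, hC⟩ := drift_down hJ hM
    have h3 := mean_bounded (J.map Prod.snd) hgood h2 hε (C := C) (by
      intro v
      rw [map_integral ((mF v).pow_const 2)]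
      exact hC v)
    refine lt_of_le_of_lt (iSup_le fun m => ?_) (ENNReal.ofReal_lt_top (r := C / ε))
    have hs := sq_moment (J.map Prod.snd) h2
    have hD1 : Integrable (fun s => (D m s : ℝ)) (Measure.infinitePi fun _ : ℕ => J.map Prod.snd) := by
      refine Integrable.mono' ((hs m).1.add (integrable_const (1 : ℝ)))
        (measurable_from_nat.comp (measurable_D m)).aestronglyMeasurable
        (Eventually.of_forall fun s => ?_)
      rw [Real.norm_eq_abs, Nat.abs_cast]
      simp only [Pi.add_apply]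
      nlinarith [sq_nonneg ((D m s : ℝ) - 1)]
    calc ∫⁻ s, (D m s : ℝ≥0∞) ∂(Measure.infinitePi fun _ : ℕ => J.map Prod.snd)
        = ∫⁻ s, ENNReal.ofReal (D m s : ℝ) ∂(Measure.infinitePi fun _ : ℕ => J.map Prod.snd) := by
          simp
      _ = ENNReal.ofReal (∫ s, (D m s : ℝ) ∂(Measure.infinitePi fun _ : ℕ => J.map Prod.snd)) :=
          (ofReal_integral_eq_lintegral_ofReal hD1
            (Eventually.of_forall fun s => Nat.cast_nonneg _)).symm
      _ ≤ ENNReal.ofReal (C / ε) := ENNReal.ofReal_le_ofReal (h3 m)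

end Pool.Agent.K7.H95.ERW
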